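import Pool.Agent.N509.HN.Cl

set_option autoImplicit false

/-!
# Squares, blocks and pinching
-/

namespace Pool.Agent.N509.HN

open Finset Pool.Agent.W666.GB Pool.Agent.W669.HD Pool.Agent.Y519.HB
open Pool.Agent.R770.NS (SymForm knSq)

section pull

variable {V W : Type} [NormedAddCommGroup V] [InnerProductSpace ℝ V]
  [NormedAddCommGroup W] [InnerProductSpace ℝ W]

theorem PosForm.pull {g : V → V → ℝ} (hg : PosForm g) (L : W →ₗ[ℝ] V) :
    PosForm (fun x y => g (L x) (L y)) where
  add x x' y := by rw [map_add, hg.add]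
  smul t x y := by rw [map_smul, hg.smul]
  symm x y := hg.symm _ _
  nonneg x := hg.nonneg _

theorem sym_pull {g : V → V → ℝ} (hg : SymForm g) (L : W →ₗ[ℝ] V) :
    SymForm (fun x y => g (L x) (L y)) where
  add x x' y := by rw [map_add, hg.add]
  smul t x y := by rw [map_smul, hg.smul]
  symm x y := hg.symm _ _

theorem curv_pull {N : V → V → V → V → ℝ} (hN : AlgCurv N) (L : W →ₗ[ℝ] V) :
    AlgCurv (fun x y z w => N (L x) (L y) (L z) (L w)) where
  add x x' y z w := by rw [map_add, hN.add]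
  smul t x y z w := by rw [map_smul, hN.smul]
  anti x y z w := hN.anti _ _ _ _
  pair x y z w := hN.pair _ _ _ _
  bianchi x y z w := hN.bianchi _ _ _ _

theorem gen_pull {g : V → V → ℝ} {S : V → V → V → V → ℝ} (h : GenNear g S) (L : W →ₗ[ℝ] V) :
    GenNear (fun x y => g (L x) (L y)) (fun x y z w => S (L x) (L y) (L z) (L w)) := by
  obtain ⟨t, p, h, N, ht0, ht1, hh, hN, hn, hb, hNb, hS⟩ := h
  exact ⟨t, p, fun k x y => h k (L x) (L y), fun x y z w => N (L x) (L y) (L z) (L w), ht0, ht1,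
    fun k => sym_pull (hh k) L, curv_pull hN L, fun n x y => hn n _ _, fun x => hb (L x),
    fun x y => hNb (L x) (L y), fun x y z w => hS _ _ _ _⟩

theorem skew_pull {g : V → V → ℝ} {S : V → V → V → V → ℝ} (h : SkewNear g S)
    (L : W →ₗ[ℝ] V) :
    SkewNear (fun x y => g (L x) (L y)) (fun x y z w => S (L x) (L y) (L z) (L w)) := by
  obtain ⟨N, hN, hn, hNb, hS⟩ := h
  exact ⟨fun x y z w => N (L x) (L y) (L z) (L w), curv_pull hN L, fun n x y => hn n _ _,
    fun x y => hNb (L x) (L y), fun x y z w => hS _ _ _ _⟩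

end pull

section squares

variable {V : Type} [NormedAddCommGroup V] [InnerProductSpace ℝ V] {m : ℕ}

/-- the constant of the general case -/
noncomputable def cg (m : ℕ) : ℝ := 13 / 18 * (4 / 9) ^ m

/-- the constant of the case without symmetric forms -/
noncomputable def cs (m : ℕ) : ℝ := 5 / 8 * (1 / 2) ^ m

/-- the determinant of the matrix of a form in an orthonormal basis -/
noncomputable def dt (e : OrthonormalBasis (Fin m × Bool) ℝ V) (g : V → V → ℝ) : ℝ :=
  (Matrix.of fun i j => g (e i) (e j)).det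

theorem dt_nonneg (e : OrthonormalBasis (Fin m × Bool) ℝ V) {g : V → V → ℝ} (hg : PosForm g) :
    0 ≤ dt e g := by
  have h1 : (Matrix.of (fm e g)).PosSemidef := by
    refine Matrix.PosSemidef.of_dotProduct_mulVec_nonneg ?_ ?_
    · ext i j
      simp only [Matrix.conjTranspose_apply, Matrix.of_apply, star_trivial, fm, hg.symm]
    · intro x
      have h1 : star x ⬝ᵥ ((Matrix.of (fm e g)).mulVec x) =
          ∑ a, ∑ c, x a * x c * fm e g a c := by
        simp only [star_trivial, dotProduct, Matrix.mulVec, Finset.mul_sum, Matrix.of_apply]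
        refine Finset.sum_congr rfl fun p _ => Finset.sum_congr rfl fun q _ => ?_
        ring
      rw [h1, fm_eval e hg.toSymForm]
      exact hg.nonneg _
  exact h1.det_nonneg

/-- The class: near `- g ∧ g` for some positive semidefinite form `g`. -/
def HopfNear (S : V → V → V → V → ℝ) : Prop :=
  ∃ g : V → V → ℝ, PosForm g ∧ (GenNear g S ∨ SkewNear g S)

theorem near_nonneg (e : OrthonormalBasis (Fin m × Bool) ℝ V) {S : V → V → V → V → ℝ}
    (h : HopfNear S) : 0 ≤ (-1) ^ m * gbc e S := by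
  obtain ⟨g, hg, h | h⟩ := h
  · refine le_trans ?_ (gen_bound e hg h)
    have h1 := dt_nonneg e hg
    have h2 : 0 ≤ roundGB m 1 := roundGB_nonneg zero_le_one
    have h3 : 0 ≤ (Matrix.of (fm e g)).det := h1
    positivity
  · refine le_trans ?_ (skew_bound e hg h)
    have h1 := dt_nonneg e hg
    have h2 : 0 ≤ roundGB m 1 := roundGB_nonneg zero_le_one
    have h3 : 0 ≤ (Matrix.of (fm e g)).det := h1
    positivity

theorem near_pull {W : Type} [NormedAddCommGroup W] [InnerProductSpace ℝ W]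
    {S : V → V → V → V → ℝ} (h : HopfNear S) (L : W →ₗ[ℝ] V) :
    HopfNear (fun x y z w => S (L x) (L y) (L z) (L w)) := by
  obtain ⟨g, hg, h | h⟩ := h
  · exact ⟨_, hg.pull L, Or.inl (gen_pull h L)⟩
  · exact ⟨_, hg.pull L, Or.inr (skew_pull h L)⟩

theorem near_curv {S : V → V → V → V → ℝ} (h : HopfNear S) : AlgCurv S := by
  obtain ⟨g, hg, h | h⟩ := h
  · obtain ⟨t, p, h, N, ht0, ht1, hh, hN, hn, hb, hNb, hS⟩ := h
    have h1 := sub_curv (sub_curv hN (Pool.Agent.R770.NS.SymForm.curv hg.toSymForm))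
      (sum_curv fun k => Pool.Agent.R770.NS.SymForm.curv (hh k))
    have h2 : S = fun a b c d => N a b c d - knSq g a b c d - ∑ i, knSq (h i) a b c d := by
      funext x y z w
      exact hS x y z w
    rw [h2]
    exact h1
  · obtain ⟨N, hN, hn, hNb, hS⟩ := h
    have h1 := sub_curv hN (Pool.Agent.R770.NS.SymForm.curv hg.toSymForm)
    have h2 : S = fun a b c d => N a b c d - knSq g a b c d := by
      funext x y z w
      exact hS x y z w
    rw [h2]
    exact h1

/-- superadditivity for the class -/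
theorem near_super (hm : 0 < m) (e : OrthonormalBasis (Fin m × Bool) ℝ V)
    {S R : V → V → V → V → ℝ} (h : HopfNear S) {δ : ℝ} (hδ : 0 ≤ δ) {n : ℕ} {x y : Fin n → V}
    (hR : ∀ a b c d, R a b c d = S a b c d - (∑ k, sqDec (x k) (y k) a b c d) -
      δ * unitT a b c d) {L : ℝ} (hL : L ≤ (-1) ^ m * gbc e S) :
    L + roundGB m δ ≤ (-1) ^ m * gbc e R := by
  have h1 := mono_super hm e hδ (near_curv h)
    (T := fun a b c d => - (∑ k, sqDec (x k) (y k) a b c d) - δ * unitT a b c d)
    (fun k _ E ε => near_nonneg ε (near_pull h E.subtype)) (fun a b c d => rfl)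
  have h2 : addT S (fun a b c d => - (∑ k, sqDec (x k) (y k) a b c d) - δ * unitT a b c d) = R := by
    funext a b c d
    rw [addT, hR]
    ring
  rw [h2] at h1
  linarith [h1.1, h1.2]

/-- Blocks of the class, minus squares, minus `δ` times the unit tensor. -/
def NearBlocks (δ : ℝ) (R : V → V → V → V → ℝ) : Prop :=
  ∃ (r : ℕ) (U : Fin r → Submodule ℝ V) (S : Fin r → V → V → V → V → ℝ) (n : ℕ)
    (x y : Fin n → V) (p q : Fin n → Fin r), OrthSum U ∧ (∀ i, AlgCurv (S i)) ∧
    (∀ i, LivesOn (U i) (S i)) ∧ (∀ i, HopfNear (fun x y z w : U i => S i x y z w)) ∧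
    (∀ k, x k ∈ U (p k)) ∧ (∀ k, y k ∈ U (q k)) ∧
    ∀ a b c d, R a b c d = (∑ i, S i a b c d) - (∑ k, sqDec (x k) (y k) a b c d) -
      δ * unitT a b c d

theorem blocks_hopf {δ : ℝ} {R : V → V → V → V → ℝ} (h : NearBlocks δ R) : HopfBlocks δ R := by
  obtain ⟨r, U, S, n, x, y, p, q, hU, hS, hL, hN, hx, hy, hR⟩ := h
  refine ⟨r, U, S, n, x, y, p, q, hU, hS, hL, fun i => ?_, hx, hy, hR⟩
  intro k E hE ε
  exact near_nonneg ε (near_pull (hN i) (Submodule.inclusion hE))

theorem blocks_bound (e : OrthonormalBasis (Fin m × Bool) ℝ V) {δ : ℝ} (hδ : 0 ≤ δ)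
    {R : V → V → V → V → ℝ} (h : NearBlocks δ R) : roundGB m δ ≤ (-1) ^ m * gbc e R :=
  cls_bound e hδ (Or.inl (blocks_hopf h))

end squares

section pinch

variable {V : Type} [NormedAddCommGroup V] [InnerProductSpace ℝ V] {m : ℕ}

/-- the form `√κ ⟨ , ⟩` -/
noncomputable def gk (κ : ℝ) (x y : V) : ℝ := √κ * inner ℝ x y

theorem gk_pos {κ : ℝ} : PosForm (gk κ : V → V → ℝ) where
  add x x' y := by simp only [gk, inner_add_left]; ring
  smul t x y := by simp only [gk, inner_smul_left, conj_trivial]; ring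
  symm x y := by simp only [gk]; rw [real_inner_comm]
  nonneg x := by
    have h1 : 0 ≤ inner ℝ x x := real_inner_self_nonneg
    have h2 := Real.sqrt_nonneg κ
    simp only [gk]
    positivity

theorem knSq_gk {κ : ℝ} (hκ : 0 ≤ κ) (x y z w : V) : knSq (gk κ) x y z w = κ * unitT x y z w := by
  simp only [knSq, gk, unitT]
  have h1 : √κ * √κ = κ := Real.mul_self_sqrt hκ
  linear_combination (inner ℝ x z * inner ℝ y w - inner ℝ x w * inner ℝ y z) * h1

theorem dt_gk (e : OrthonormalBasis (Fin m × Bool) ℝ V) {κ : ℝ} (hκ : 0 ≤ κ) :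
    dt e (gk κ) = κ ^ m := by
  have h1 : (Matrix.of fun i j => gk κ (e i) (e j)) =
      √κ • (1 : Matrix (Fin m × Bool) (Fin m × Bool) ℝ) := by
    ext i j
    simp only [Matrix.of_apply, gk, inner_e, Matrix.smul_apply, Matrix.one_apply, smul_eq_mul]
  rw [dt, h1, Matrix.det_smul, Matrix.det_one, mul_one, Fintype.card_prod, Fintype.card_fin,
    Fintype.card_bool, mul_comm, pow_mul, Real.sq_sqrt hκ]

theorem roundGB_mul (κ : ℝ) : κ ^ m * roundGB m 1 = roundGB m κ := by
  unfold roundGB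
  rw [one_pow]
  ring

/-- curvature operator at least `-κ`, sectional curvatures at most `-(31/32) κ` -/
def OpPinched (κ : ℝ) (R : V → V → V → V → ℝ) : Prop :=
  AlgCurv R ∧ OpNonneg (addT R fun x y z w => κ * unitT x y z w) ∧
    ∀ x y : V, ‖x‖ = 1 → ‖y‖ = 1 → inner ℝ x y = 0 → R x y x y ≤ -(31 / 32 * κ)

theorem pinched_skew {κ : ℝ} (hκ : 0 ≤ κ) {R : V → V → V → V → ℝ} (h : OpPinched κ R) :
    SkewNear (gk κ) R := by
  obtain ⟨hR, hop, hs⟩ := h
  have hN : AlgCurv (addT R fun x y z w => κ * unitT x y z w) := add_curv hR (unit_curv κ)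
  refine ⟨addT R fun x y z w => κ * unitT x y z w, hN, hop, fun x y => ?_, fun x y z w => ?_⟩
  · have h1 : SecIn (addT R fun x y z w => κ * unitT x y z w) (-(1 / 32 * κ)) (1 / 32 * κ) := by
      intro x y hx hy hxy
      have h2 : addT R (fun x y z w => κ * unitT x y z w) x y x y = R x y x y + κ := by
        simp only [addT, unitT]
        rw [real_inner_self_eq_norm_sq, real_inner_self_eq_norm_sq, hxy, hx, hy]
        ring
      constructor
      · have h3 := hop 1 (fun _ => x) (fun _ => y)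
        simp only [Finset.univ_unique, Finset.sum_singleton] at h3
        have : 0 ≤ 1 / 32 * κ := by positivity
        linarith
      · rw [h2]
        have := hs x y hx hy hxy
        linarith
    have h2 := hN.sec_all (by positivity) h1 x y
    have h3 : gk κ x x * gk κ y y = κ * (‖x‖ ^ 2 * ‖y‖ ^ 2) := by
      simp only [gk]
      rw [real_inner_self_eq_norm_sq, real_inner_self_eq_norm_sq]
      have h1 : √κ * √κ = κ := Real.mul_self_sqrt hκ
      linear_combination (‖x‖ ^ 2 * ‖y‖ ^ 2) * h1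
    rw [h3]
    have h4 := (abs_le.1 h2).2
    linarith
  · rw [knSq_gk hκ, addT]
    ring

theorem pinched_bound (hm : 0 < m) (e : OrthonormalBasis (Fin m × Bool) ℝ V) {κ : ℝ}
    (hκ : 0 ≤ κ) {S R : V → V → V → V → ℝ} (h : OpPinched κ S) {δ : ℝ} (hδ : 0 ≤ δ) {n : ℕ}
    {x y : Fin n → V} (hR : ∀ a b c d, R a b c d = S a b c d -
      (∑ k, sqDec (x k) (y k) a b c d) - δ * unitT a b c d) :
    cs m * roundGB m κ + roundGB m δ ≤ (-1) ^ m * gbc e R := by
  refine near_super hm e ⟨gk κ, gk_pos, Or.inr (pinched_skew hκ h)⟩ hδ hR ?_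
  refine le_trans (le_of_eq ?_) (skew_bound e gk_pos (pinched_skew hκ h))
  have h1 : (Matrix.of (fm e (gk κ))).det = κ ^ m := dt_gk e hκ
  rw [h1, mul_assoc, roundGB_mul, cs]

end pinch

end Pool.Agent.N509.HN
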