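import Pool.Agent.N509.HN.Ve

set_option autoImplicit false

/-!
# The classes of curvature tensors and the bounds
-/

namespace Pool.Agent.N509.HN

open Finset Pool.Agent.W666.GB Pool.Agent.W669.HD Pool.Agent.Y519.HB
open Pool.Agent.R770.NS (SymForm knSq)

section classes

variable {V : Type} [NormedAddCommGroup V] [InnerProductSpace ℝ V]

/-- Positive semidefinite symmetric bilinear forms. -/
structure PosForm (g : V → V → ℝ) : Prop extends SymForm g where
  nonneg : ∀ x, 0 ≤ g x x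

/-- `S = - g ∧ g - ∑ h_k ∧ h_k + N`, where `g ∧ g = knSq g` is the form induced by `g` on the
bivectors, the symmetric forms `h_k` satisfy `∑ h_k(x,x)² ≤ (t/12)² g(x,x)²`, and `N` is a
curvature tensor with nonnegative curvature operator and
`N(x,y,x,y) ≤ ((1-t)/12)² g(x,x) g(y,y)`. -/
def GenNear (g : V → V → ℝ) (S : V → V → V → V → ℝ) : Prop :=
  ∃ (t : ℝ) (p : ℕ) (h : Fin p → V → V → ℝ) (N : V → V → V → V → ℝ), 0 < t ∧ t < 1 ∧
    (∀ k, SymForm (h k)) ∧ AlgCurv N ∧ OpNonneg N ∧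
    (∀ x, ∑ k, h k x x ^ 2 ≤ (t / 12 * g x x) ^ 2) ∧
    (∀ x y, N x y x y ≤ ((1 - t) / 12) ^ 2 * (g x x * g y y)) ∧
    ∀ x y z w, S x y z w = N x y z w - knSq g x y z w - ∑ k, knSq (h k) x y z w

/-- `S = - g ∧ g + N`, where `N` is a curvature tensor with nonnegative curvature operator and
`N(x,y,x,y) ≤ (1/32) g(x,x) g(y,y)`. -/
def SkewNear (g : V → V → ℝ) (S : V → V → V → V → ℝ) : Prop :=
  ∃ N : V → V → V → V → ℝ, AlgCurv N ∧ OpNonneg N ∧
    (∀ x y, N x y x y ≤ 1 / 32 * (g x x * g y y)) ∧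
    ∀ x y z w, S x y z w = N x y z w - knSq g x y z w

end classes

section pol

variable {V : Type} [NormedAddCommGroup V] [InnerProductSpace ℝ V]

theorem sym_add2 {h : V → V → ℝ} (hh : SymForm h) (x y y' : V) :
    h x (y + y') = h x y + h x y' := by
  rw [← hh.symm x (y + y'), hh.add, hh.symm x y, hh.symm x y']

theorem sym_smul2 {h : V → V → ℝ} (hh : SymForm h) (t : ℝ) (x y : V) :
    h x (t • y) = t * h x y := by
  rw [← hh.symm x (t • y), hh.smul, hh.symm x y]

theorem sym_quad {h : V → V → ℝ} (hh : SymForm h) (s t : ℝ) (x y : V) :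
    h (s • x + t • y) (s • x + t • y) = s ^ 2 * h x x + 2 * (s * t) * h x y + t ^ 2 * h y y := by
  rw [hh.add, sym_add2 hh, sym_add2 hh, hh.smul, hh.smul, hh.smul, hh.smul, sym_smul2 hh,
    sym_smul2 hh, sym_smul2 hh, sym_smul2 hh, hh.symm x y]
  ring

/-- polarisation of the bound for the family -/
theorem polar {p : ℕ} {h : Fin p → V → V → ℝ} (hh : ∀ k, SymForm (h k)) {g : V → V → ℝ}
    (hg : PosForm g) {c : ℝ} (hc : 0 ≤ c) (hb : ∀ x, ∑ k, h k x x ^ 2 ≤ (c * g x x) ^ 2)
    (x y : V) : ∑ k, h k x y ^ 2 ≤ c ^ 2 * (g x x * g y y) := by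
  set S : ℝ := ∑ k, h k x y ^ 2 with hS
  have hS0 : 0 ≤ S := Finset.sum_nonneg fun _ _ => sq_nonneg _
  set r : ℝ := √S with hr
  have hr0 : 0 ≤ r := Real.sqrt_nonneg _
  have hr2 : r ^ 2 = S := Real.sq_sqrt hS0
  have hcs : ∀ z, |∑ k, h k x y * h k z z| ≤ r * (c * g z z) := by
    intro z
    have hz : 0 ≤ c * g z z := mul_nonneg hc (hg.nonneg z)
    refine abs_le_of_sq_le_sq ?_ (mul_nonneg hr0 hz)
    calc (∑ k, h k x y * h k z z) ^ 2 ≤ (∑ k, h k x y ^ 2) * ∑ k, h k z z ^ 2 :=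
          Finset.sum_mul_sq_le_sq_mul_sq _ _ _
      _ ≤ S * (c * g z z) ^ 2 := mul_le_mul_of_nonneg_left (hb z) hS0
      _ = (r * (c * g z z)) ^ 2 := by rw [mul_pow r, hr2]
  have hkey : ∀ s : ℝ, 2 * s * r ^ 2 ≤ r * (c * (s ^ 2 * g x x + g y y)) := by
    intro s
    have h1 := hcs (s • x + (1 : ℝ) • y)
    have h2 := hcs (s • x + (-1 : ℝ) • y)
    have h3 : ∑ k, h k x y * h k (s • x + (1 : ℝ) • y) (s • x + (1 : ℝ) • y) -
        ∑ k, h k x y * h k (s • x + (-1 : ℝ) • y) (s • x + (-1 : ℝ) • y) = 4 * s * r ^ 2 := by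
      rw [← Finset.sum_sub_distrib, hr2, hS, Finset.mul_sum]
      refine Finset.sum_congr rfl fun k _ => ?_
      rw [sym_quad (hh k), sym_quad (hh k)]
      ring
    rw [sym_quad hg.toSymForm] at h1 h2
    have h4 := (abs_le.1 h1).2
    have h5 := (abs_le.1 h2).1
    linarith
  rcases hr0.eq_or_lt with h0 | h0
  · rw [← hr2, ← h0]
    have h1 := mul_nonneg (sq_nonneg c) (mul_nonneg (hg.nonneg x) (hg.nonneg y))
    linarith
  · have h1 : ∀ s : ℝ, 0 ≤ c * g x x * (s * s) + (-2 * r) * s + c * g y y := by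
      intro s
      have h2 := hkey s
      have h3 : r * (2 * s * r) ≤ r * (c * (s ^ 2 * g x x + g y y)) := by linarith
      have h4 := le_of_mul_le_mul_left h3 h0
      linarith
    have h2 := discrim_le_zero h1
    rw [discrim] at h2
    rw [← hr2]
    nlinarith

end pol

section base

variable {V : Type} [NormedAddCommGroup V] [InnerProductSpace ℝ V] {m : ℕ}

theorem gbc_zero_dim (e : OrthonormalBasis (Fin 0 × Bool) ℝ V) (S : V → V → V → V → ℝ) :
    gbc e S = 1 := by
  unfold gbc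
  simp

theorem vec_ne (e : OrthonormalBasis (Fin m × Bool) ℝ V) {x : Fin m × Bool → ℝ} (hx : x ≠ 0) :
    ∑ i, x i • e i ≠ 0 := by
  intro h
  apply hx
  have h1 := (Fintype.linearIndependent_iff.1 e.toBasis.linearIndependent) x (by simpa using h)
  funext i
  exact h1 i

/-- the matrix of a form -/
noncomputable def fm (e : OrthonormalBasis (Fin m × Bool) ℝ V) (g : V → V → ℝ)
    (i j : Fin m × Bool) : ℝ := g (e i) (e j)

theorem fm_eval (e : OrthonormalBasis (Fin m × Bool) ℝ V) {g : V → V → ℝ} (hg : SymForm g)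
    (x y : Fin m × Bool → ℝ) : ∑ a, ∑ c, x a * y c * fm e g a c =
      g (∑ i, x i • e i) (∑ i, y i • e i) := by
  rw [Pool.Agent.R770.NS.SymForm.expand hg]
  rfl

/-- the squares of which a nonnegative curvature operator is composed -/
theorem skew_family (e : OrthonormalBasis (Fin m × Bool) ℝ V) {N : V → V → V → V → ℝ}
    (hN : AlgCurv N) (hn : OpNonneg N) {g : V → V → ℝ} (hg : SymForm g) {η : ℝ}
    (hb : ∀ x y, N x y x y ≤ η * (g x x * g y y)) :
    ∃ (n : ℕ) (ν : Fin n → Fin m × Bool → Fin m × Bool → ℝ), (∀ a i j, ν a i j = -ν a j i) ∧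
      (∀ i j k l, N (e i) (e j) (e k) (e l) =
        ∑ a, ν a i k * ν a j l - ∑ a, ν a i l * ν a j k) ∧ SmallR (fm e g) ν η := by
  obtain ⟨n, ν, h1, h2⟩ := BiForm.squares (fun i => e i) (Pool.Agent.W150.HD.curv_bi hN) hn
  refine ⟨n, ν, fun a i j => h1 a j i, ?_, ?_⟩
  · intro i j k l
    have h3 := hN.bianchi (e i) (e j) (e k) (e l)
    rw [h2, h2, h2] at h3
    rw [h2]
    have h4 : ∑ a, ν a k i * ν a j l = -∑ a, ν a i k * ν a j l := by
      rw [← Finset.sum_neg_distrib]
      refine Finset.sum_congr rfl fun a _ => ?_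
      rw [h1 a i k]
      ring
    have h5 : ∑ a, ν a j k * ν a i l = ∑ a, ν a i l * ν a j k :=
      Finset.sum_congr rfl fun a _ => mul_comm _ _
    rw [h4, h5] at h3
    linarith
  · intro x y
    rw [fm_eval e hg, fm_eval e hg]
    have h3 := hb (∑ i, x i • e i) (∑ i, y i • e i)
    rw [R_ev4 hN, ev4_eq] at h3
    rw [mul_assoc]
    refine le_trans (le_of_eq ?_) h3
    simp only [h2]
    have h4 : ∀ a, (∑ i, ∑ j, x i * y j * ν a i j) ^ 2 =
        ∑ i, ∑ j, ∑ k, ∑ l, x i * y j * x k * y l * (ν a i j * ν a k l) := by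
      intro a
      rw [sq, Finset.sum_mul_sum]
      refine Finset.sum_congr rfl fun i _ => ?_
      rw [Finset.sum_congr rfl fun k _ => Finset.sum_mul_sum _ _ _ _, Finset.sum_comm]
      refine Finset.sum_congr rfl fun j _ => Finset.sum_congr rfl fun k _ =>
        Finset.sum_congr rfl fun l _ => ?_
      ring
    simp only [h4, Finset.mul_sum]
    rw [Finset.sum_comm]
    refine Finset.sum_congr rfl fun i _ => ?_
    rw [Finset.sum_comm]
    refine Finset.sum_congr rfl fun j _ => ?_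
    rw [Finset.sum_comm]
    refine Finset.sum_congr rfl fun k _ => ?_
    rw [Finset.sum_comm]

theorem gen_pd (e : OrthonormalBasis (Fin m × Bool) ℝ V) {g : V → V → ℝ} (hg : PosForm g)
    (hpd : ∀ x, x ≠ 0 → 0 < g x x) {S : V → V → V → V → ℝ} (h : GenNear g S) :
    13 / 18 * (4 / 9) ^ m * (Matrix.of (fm e g)).det * roundGB m 1 ≤ (-1) ^ m * gbc e S := by
  rcases Nat.eq_zero_or_pos m with hm | hm
  · subst hm
    rw [gbc_zero_dim, roundGB_one]
    simp
    norm_num
  obtain ⟨t, p, h, N, ht0, ht1, hh, hN, hn, hb, hNb, hS⟩ := h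
  obtain ⟨n, ν, hν, hNν, hsm⟩ := skew_family e hN hn hg.toSymForm hNb
  have hsh : SmallR (fm e g) (fun k => fm e (h k)) (t ^ 2 / 144) := by
    intro x y
    simp only [fm_eval e (hh _), fm_eval e hg.toSymForm]
    have h1 := polar hh hg (c := t / 12) (by positivity) hb (∑ i, x i • e i) (∑ i, y i • e i)
    refine h1.trans (le_of_eq ?_)
    ring
  have hsm' : SmallR (fm e g) ν ((1 - t) ^ 2 / 144) := by
    have : ((1 - t) / 12) ^ 2 = (1 - t) ^ 2 / 144 := by ring
    rwa [this] at hsm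
  have h1 := mat_gen hm (fm e g) (fun k => fm e (h k)) ν
    (fun i j => hg.symm _ _) (fun x hx => by
      rw [fm_eval e hg.toSymForm]
      exact hpd _ (vec_ne e hx)) (fun a i j => (hh a).symm _ _) hν ht0 ht1 hsh hsm'
  rw [gbc_of_lift e S (CC (fm e g) (fun k => fm e (h k)) ν) (fun i j k l => by
    rw [hS, hNν]
    simp only [CC, knSq, fm, Finset.sum_sub_distrib]
    ring), roundGB_one]
  have hπ := Real.pi_pos
  have h2 : 0 < 1 / ((4 * Real.pi) ^ m * (m.factorial : ℝ)) := by positivity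
  have h3 := mul_le_mul_of_nonneg_left h1 h2.le
  refine le_trans (le_of_eq ?_) h3
  ring

theorem skew_pd (e : OrthonormalBasis (Fin m × Bool) ℝ V) {g : V → V → ℝ} (hg : PosForm g)
    (hpd : ∀ x, x ≠ 0 → 0 < g x x) {S : V → V → V → V → ℝ} (h : SkewNear g S) :
    5 / 8 * (1 / 2) ^ m * (Matrix.of (fm e g)).det * roundGB m 1 ≤ (-1) ^ m * gbc e S := by
  rcases Nat.eq_zero_or_pos m with hm | hm
  · subst hm
    rw [gbc_zero_dim, roundGB_one]
    simp
    norm_num
  obtain ⟨N, hN, hn, hNb, hS⟩ := h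
  obtain ⟨n, ν, hν, hNν, hsm⟩ := skew_family e hN hn hg.toSymForm hNb
  have h1 := mat_skew hm (fm e g) ν
    (fun i j => hg.symm _ _) (fun x hx => by
      rw [fm_eval e hg.toSymForm]
      exact hpd _ (vec_ne e hx)) hν hsm
  rw [gbc_of_lift e S (CC (fm e g) h0 ν) (fun i j k l => by
    rw [hS, hNν]
    simp only [CC, knSq, fm, Finset.univ_eq_empty, Finset.sum_empty]
    ring), roundGB_one]
  have hπ := Real.pi_pos
  have h2 : 0 < 1 / ((4 * Real.pi) ^ m * (m.factorial : ℝ)) := by positivity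
  have h3 := mul_le_mul_of_nonneg_left h1 h2.le
  refine le_trans (le_of_eq ?_) h3
  ring

/-- adding a small multiple of the metric -/
noncomputable def gs (g : V → V → ℝ) (s : ℝ) (x y : V) : ℝ := g x y + s * inner ℝ x y

theorem gs_pos {g : V → V → ℝ} (hg : PosForm g) {s : ℝ} (hs : 0 ≤ s) : PosForm (gs g s) where
  add x x' y := by simp only [gs, hg.add, inner_add_left]; ring
  smul t x y := by simp only [gs, hg.smul, inner_smul_left, conj_trivial]; ring
  symm x y := by simp only [gs]; rw [hg.symm, real_inner_comm]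
  nonneg x := by
    simp only [gs]
    have := hg.nonneg x
    have h1 : 0 ≤ inner ℝ x x := real_inner_self_nonneg
    positivity

theorem gs_pd {g : V → V → ℝ} (hg : PosForm g) {s : ℝ} (hs : 0 < s) (x : V) (hx : x ≠ 0) :
    0 < gs g s x x := by
  simp only [gs]
  have := hg.nonneg x
  have h1 : 0 < inner ℝ x x := real_inner_self_pos.2 hx
  positivity

theorem gs_ge {g : V → V → ℝ} {s : ℝ} (hs : 0 ≤ s) (x : V) : g x x ≤ gs g s x x := by
  simp only [gs]
  have h1 : 0 ≤ inner ℝ x x := real_inner_self_nonneg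
  have := mul_nonneg hs h1
  linarith

/-- the limit argument -/
theorem limit_arg (e : OrthonormalBasis (Fin m × Bool) ℝ V) (g : V → V → ℝ)
    (S : V → V → V → V → ℝ) (c : ℝ)
    (h : ∀ s : ℝ, 0 < s → c * (Matrix.of (fm e (gs g s))).det * roundGB m 1 ≤
      (-1) ^ m * gbc e (fun x y z w => S x y z w + knSq g x y z w - knSq (gs g s) x y z w)) :
    c * (Matrix.of (fm e g)).det * roundGB m 1 ≤ (-1) ^ m * gbc e S := by
  have hcl : IsClosed {s : ℝ | c * (Matrix.of (fm e (gs g s))).det * roundGB m 1 ≤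
      (-1) ^ m * gbc e (fun x y z w => S x y z w + knSq g x y z w - knSq (gs g s) x y z w)} := by
    refine isClosed_le ?_ ?_
    · refine Continuous.mul (Continuous.mul continuous_const ?_) continuous_const
      refine Continuous.matrix_det ?_
      refine continuous_matrix fun i j => ?_
      simp only [Matrix.of_apply, fm, gs]
      fun_prop
    · unfold gbc knSq gs
      fun_prop
  have h0 : (0 : ℝ) ∈ closure (Set.Ioi (0 : ℝ)) := by
    rw [closure_Ioi]
    exact Set.mem_Ici.2 le_rfl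
  have h1 : Set.Ioi (0 : ℝ) ⊆ {s : ℝ | c * (Matrix.of (fm e (gs g s))).det * roundGB m 1 ≤
      (-1) ^ m * gbc e (fun x y z w => S x y z w + knSq g x y z w - knSq (gs g s) x y z w)} :=
    fun s hs => h s hs
  have h2 := hcl.closure_subset_iff.2 h1 h0
  have e1 : gs g 0 = g := by
    funext x y
    simp [gs]
  simp only [Set.mem_ofPred_eq, e1, add_sub_cancel_right] at h2
  exact h2

/-- **The general bound.** -/
theorem gen_bound (e : OrthonormalBasis (Fin m × Bool) ℝ V) {g : V → V → ℝ} (hg : PosForm g)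
    {S : V → V → V → V → ℝ} (h : GenNear g S) :
    13 / 18 * (4 / 9) ^ m * (Matrix.of (fm e g)).det * roundGB m 1 ≤ (-1) ^ m * gbc e S := by
  refine limit_arg e g S _ fun s hs => ?_
  refine gen_pd e (gs_pos hg hs.le) (gs_pd hg hs) ?_
  obtain ⟨t, p, h, N, ht0, ht1, hh, hN, hn, hb, hNb, hS⟩ := h
  refine ⟨t, p, h, N, ht0, ht1, hh, hN, hn, fun x => ?_, fun x y => ?_, fun x y z w => ?_⟩
  · refine (hb x).trans (pow_le_pow_left₀ ?_ ?_ 2)
    · have := hg.nonneg x
      positivity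
    · exact mul_le_mul_of_nonneg_left (gs_ge hs.le x) (by positivity)
  · refine (hNb x y).trans ?_
    refine mul_le_mul_of_nonneg_left ?_ (sq_nonneg _)
    exact mul_le_mul (gs_ge hs.le x) (gs_ge hs.le y) (hg.nonneg y)
      ((gs_pos hg hs.le).nonneg x)
  · simp only [hS]
    ring

/-- **The bound without symmetric forms.** -/
theorem skew_bound (e : OrthonormalBasis (Fin m × Bool) ℝ V) {g : V → V → ℝ} (hg : PosForm g)
    {S : V → V → V → V → ℝ} (h : SkewNear g S) :
    5 / 8 * (1 / 2) ^ m * (Matrix.of (fm e g)).det * roundGB m 1 ≤ (-1) ^ m * gbc e S := by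
  refine limit_arg e g S _ fun s hs => ?_
  refine skew_pd e (gs_pos hg hs.le) (gs_pd hg hs) ?_
  obtain ⟨N, hN, hn, hNb, hS⟩ := h
  refine ⟨N, hN, hn, fun x y => ?_, fun x y z w => ?_⟩
  · refine (hNb x y).trans ?_
    refine mul_le_mul_of_nonneg_left ?_ (by norm_num)
    exact mul_le_mul (gs_ge hs.le x) (gs_ge hs.le y) (hg.nonneg y)
      ((gs_pos hg hs.le).nonneg x)
  · simp only [hS]
    ring

end base

end Pool.Agent.N509.HN
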