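import Pool.Agent.N509.HN.De

set_option autoImplicit false

/-!
# The lower bound for matrices
-/

namespace Pool.Agent.N509.HN

open Finset
open Pool.Agent.Y489.SM
open Pool.Agent.W666.GB (sn sn_mul sn_inv sn_mul_self MD Yf)

variable {m : ℕ}

theorem W2_nonneg (hm : 0 < m) (T : Fin m × Bool → Fin m × Bool → ℝ) :
    0 ≤ W2 (fun _ : Fin m × Bool => T) := by
  have : Nonempty (Fin m × Bool) := ⟨(⟨0, hm⟩, true)⟩
  have h1 := W2_lower (m := m) T (fun _ => 1)
  have h2 : 0 ≤ (∑ _p : Fin m × Bool, (1 : ℝ) ^ 2) ^ m * W2 (fun _ : Fin m × Bool => T) := by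
    refine le_trans ?_ h1
    have := cc_pos (K := Fin m × Bool) m
    positivity
  refine nonneg_of_mul_nonneg_right h2 ?_
  have h3 : (0 : ℝ) < ∑ _p : Fin m × Bool, (1 : ℝ) ^ 2 := by
    rw [Finset.sum_const, Finset.card_univ, nsmul_eq_mul]
    have : 0 < Fintype.card (Fin m × Bool) := Fintype.card_pos
    positivity
  positivity

theorem exists_root (hm : 0 < m) {a : ℝ} (ha : 0 ≤ a) : ∃ μ : ℝ, 0 ≤ μ ∧ (μ ^ 2) ^ m = a := by
  refine ⟨a ^ ((2 * m : ℕ) : ℝ)⁻¹, Real.rpow_nonneg ha _, ?_⟩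
  rw [← pow_mul]
  exact Real.rpow_inv_natCast_pow ha (by omega)

theorem bd_of_sq {J : Type} [Fintype J] {T : J → J → ℝ} {μ : ℝ} (hμ : 0 ≤ μ)
    (h : ∀ x y : J → ℝ, (∑ a, ∑ b, x a * y b * T a b) ^ 2 ≤
      μ ^ 2 * (∑ a, x a ^ 2) * (∑ b, y b ^ 2)) : Bd T μ := by
  intro x y
  have hx : 0 ≤ ∑ a, x a ^ 2 := Finset.sum_nonneg fun _ _ => sq_nonneg _
  have hy : 0 ≤ ∑ a, y a ^ 2 := Finset.sum_nonneg fun _ _ => sq_nonneg _
  refine abs_le_of_sq_le_sq ?_ (by positivity)
  refine (h x y).trans ?_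
  have h1 : μ ^ 2 * (∑ a, x a ^ 2) * (∑ b, y b ^ 2) ≤
      μ ^ 2 * ((∑ a, x a ^ 2 + ∑ a, y a ^ 2) ^ 2 / 4) := by
    rw [mul_assoc]
    refine mul_le_mul_of_nonneg_left ?_ (sq_nonneg _)
    nlinarith [sq_nonneg (∑ a, x a ^ 2 - ∑ a, y a ^ 2)]
  refine h1.trans (le_of_eq ?_)
  ring

theorem bd_of_W2 (hm : 0 < m) (T : Fin m × Bool → Fin m × Bool → ℝ) {μ : ℝ} (hμ : 0 ≤ μ)
    (h : W2 (fun _ : Fin m × Bool => T) =
      cc (Fin m × Bool) m * cc (Fin m × Bool) m * (μ ^ 2) ^ m) : Bd T μ := by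
  have : Nonempty (Fin m × Bool) := ⟨(⟨0, hm⟩, true)⟩
  refine bd_of_sq hμ fun x y => ?_
  have h1 := W2_lower (m := m) T x
  rw [h] at h1
  have hc := cc_pos (K := Fin m × Bool) m
  have h2 : (∑ q, (∑ p, x p * T p q) ^ 2) ^ m ≤ ((∑ p, x p ^ 2) * μ ^ 2) ^ m := by
    rw [mul_pow]
    have h3 : cc (Fin m × Bool) m * cc (Fin m × Bool) m * (∑ q, (∑ p, x p * T p q) ^ 2) ^ m ≤
        cc (Fin m × Bool) m * cc (Fin m × Bool) m * ((∑ p, x p ^ 2) ^ m * (μ ^ 2) ^ m) := by
      refine h1.trans (le_of_eq ?_)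
      ring
    exact le_of_mul_le_mul_left h3 (by positivity)
  have hx : 0 ≤ ∑ a, x a ^ 2 := Finset.sum_nonneg fun _ _ => sq_nonneg _
  have h3 : ∑ q, (∑ p, x p * T p q) ^ 2 ≤ (∑ p, x p ^ 2) * μ ^ 2 :=
    le_of_pow_le_pow_left₀ hm.ne' (by positivity) h2
  have h4 : ∑ a, ∑ b, x a * y b * T a b = ∑ q, (∑ p, x p * T p q) * y q := by
    rw [Finset.sum_comm]
    refine Finset.sum_congr rfl fun q _ => ?_
    rw [Finset.sum_mul]
    exact Finset.sum_congr rfl fun p _ => by ring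
  rw [h4]
  calc (∑ q, (∑ p, x p * T p q) * y q) ^ 2 ≤
        (∑ q, (∑ p, x p * T p q) ^ 2) * ∑ q, y q ^ 2 := Finset.sum_mul_sq_le_sq_mul_sq _ _ _
    _ ≤ ((∑ p, x p ^ 2) * μ ^ 2) * ∑ q, y q ^ 2 :=
        mul_le_mul_of_nonneg_right h3 (Finset.sum_nonneg fun _ _ => sq_nonneg _)
    _ = _ := by ring

theorem conv_pow {t : ℝ} (ht0 : 0 < t) (ht1 : t < 1) {μ ν : ℝ} (hμ : 0 ≤ μ) (hν : 0 ≤ ν) :
    ((μ + ν) ^ 2) ^ m ≤ t / (t ^ 2) ^ m * (μ ^ 2) ^ m +
      (1 - t) / ((1 - t) ^ 2) ^ m * (ν ^ 2) ^ m := by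
  have h1 : 0 < 1 - t := by linarith
  have h := (convexOn_pow (𝕜 := ℝ) (2 * m)).2 (x := μ / t) (Set.mem_Ici.2 (by positivity))
    (y := ν / (1 - t)) (Set.mem_Ici.2 (by positivity)) ht0.le h1.le (by ring)
  simp only [smul_eq_mul] at h
  have e1 : t * (μ / t) + (1 - t) * (ν / (1 - t)) = μ + ν := by
    field_simp
  rw [e1, pow_mul, pow_mul, pow_mul] at h
  refine h.trans (le_of_eq ?_)
  rw [div_pow, div_pow, div_pow, div_pow]
  ring

section congr

variable {J : Type} [Fintype J] [DecidableEq J]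

/-- the form in a new basis -/
def cj (U : Matrix J J ℝ) (T : J → J → ℝ) (i j : J) : ℝ := ∑ a, ∑ c, U a i * U c j * T a c

theorem det_cj {K : Type} [Fintype K] (U : Matrix J J ℝ) (B : K → J → J → ℝ) (z : K → ℂ) :
    (Matrix.of fun i j => ∑ k, z k * (cj U (B k) i j : ℂ)).det =
      ((U.det ^ 2 : ℝ) : ℂ) * (Matrix.of fun i j => ∑ k, z k * (B k i j : ℂ)).det := by
  have h1 : (Matrix.of fun i j => ∑ k, z k * (cj U (B k) i j : ℂ)) =
      (U.map (algebraMap ℝ ℂ)).transpose * (Matrix.of fun i j => ∑ k, z k * (B k i j : ℂ)) *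
        U.map (algebraMap ℝ ℂ) := by
    ext i j
    simp only [Matrix.mul_apply, Matrix.transpose_apply, Matrix.map_apply, Matrix.of_apply, cj,
      Complex.coe_algebraMap]
    push_cast
    simp only [Finset.mul_sum, Finset.sum_mul]
    rw [Finset.sum_comm]
    rw [Finset.sum_congr rfl fun a _ => Finset.sum_comm]
    rw [Finset.sum_comm]
    refine Finset.sum_congr rfl fun c _ => Finset.sum_congr rfl fun a _ =>
      Finset.sum_congr rfl fun k _ => ?_
    ring
  have h2 : (U.map (algebraMap ℝ ℂ)).det = ((U.det : ℝ) : ℂ) := by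
    rw [← RingHom.mapMatrix_apply, ← RingHom.map_det]
    rfl
  rw [h1, Matrix.det_mul, Matrix.det_mul, Matrix.det_transpose, h2]
  push_cast
  ring

omit [DecidableEq J] in
theorem cj_symm {U : Matrix J J ℝ} {T : J → J → ℝ} (h : ∀ i j, T i j = T j i) (i j : J) :
    cj U T i j = cj U T j i := by
  unfold cj
  rw [Finset.sum_comm]
  refine Finset.sum_congr rfl fun a _ => Finset.sum_congr rfl fun c _ => ?_
  rw [h c a]
  ring

omit [DecidableEq J] in
theorem cj_skew {U : Matrix J J ℝ} {T : J → J → ℝ} (h : ∀ i j, T i j = -T j i) (i j : J) :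
    cj U T i j = -cj U T j i := by
  unfold cj
  rw [Finset.sum_comm, ← Finset.sum_neg_distrib]
  refine Finset.sum_congr rfl fun a _ => ?_
  rw [← Finset.sum_neg_distrib]
  refine Finset.sum_congr rfl fun c _ => ?_
  rw [h c a]
  ring

omit [DecidableEq J] in
theorem cj_form (U : Matrix J J ℝ) (T : J → J → ℝ) (x y : J → ℝ) :
    ∑ i, ∑ j, x i * y j * cj U T i j =
      ∑ a, ∑ c, (∑ i, U a i * x i) * (∑ j, U c j * y j) * T a c := by
  simp only [cj, Finset.mul_sum, Finset.sum_mul]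
  have h1 : ∀ i, ∑ j, ∑ a, ∑ c, x i * y j * (U a i * U c j * T a c) =
      ∑ a, ∑ c, ∑ j, x i * y j * (U a i * U c j * T a c) := fun i => by
    rw [Finset.sum_comm]
    exact Finset.sum_congr rfl fun a _ => Finset.sum_comm
  simp only [h1]
  rw [Finset.sum_comm]
  refine Finset.sum_congr rfl fun a _ => ?_
  rw [Finset.sum_comm]
  refine Finset.sum_congr rfl fun c _ => ?_
  rw [Finset.sum_comm]
  refine Finset.sum_congr rfl fun i _ => Finset.sum_congr rfl fun j _ => ?_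
  ring

end congr

section core

variable {A A' : Type} [Fintype A] [DecidableEq A] [Fintype A'] [DecidableEq A']
  (H : Fin m × Bool → Fin m × Bool → ℝ)
  (h : A → Fin m × Bool → Fin m × Bool → ℝ) (b : A' → Fin m × Bool → Fin m × Bool → ℝ)

/-- all the forms -/
noncomputable def BB : Option (A ⊕ A') → Fin m × Bool → Fin m × Bool → ℝ :=
  fun k => k.elim H (Sum.elim h b)

/-- the weights -/
def ww (A A' : Type) : Option (A ⊕ A') → ℝ :=
  fun k => k.elim 1 (Sum.elim (fun _ => 1) (fun _ => -1))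

/-- the square roots of the weights -/
noncomputable def om (A A' : Type) : Option (A ⊕ A') → ℂ :=
  fun k => k.elim 1 (Sum.elim (fun _ => 1) (fun _ => Complex.I))

/-- the symmetric forms -/
def Th (A' : Type) : Option (A ⊕ A') → Fin m × Bool → Fin m × Bool → ℝ :=
  fun k i j => k.elim 0 (Sum.elim (fun a => h a i j) (fun _ => 0))

/-- the skew forms -/
def Tb (A : Type) : Option (A ⊕ A') → Fin m × Bool → Fin m × Bool → ℝ :=
  fun k i j => k.elim 0 (Sum.elim (fun _ => 0) (fun a => b a i j))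

/-- the form of which the double alternating form is taken -/
noncomputable def CC (i k j l : Fin m × Bool) : ℝ :=
  H i k * H j l + ∑ a, h a i k * h a j l - ∑ a, b a i k * b a j l

omit [DecidableEq A] [DecidableEq A'] in
theorem CC_eq : (fun i k j l => ∑ q, ww A A' q * (BB H h b q i k * BB H h b q j l)) =
    CC H h b := by
  funext i k j l
  simp only [Fintype.sum_option, Fintype.sum_sum_type, ww, BB, Option.elim, Sum.elim_inl,
    Sum.elim_inr, CC, one_mul, neg_one_mul, Finset.sum_neg_distrib]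
  ring

/-- the condition on a family of forms -/
def Small {I : Type} [Fintype I] (T : I → Fin m × Bool → Fin m × Bool → ℝ) (η : ℝ) : Prop :=
  ∀ x y : Fin m × Bool → ℝ, ∑ k, (∑ a, ∑ c, x a * y c * T k a c) ^ 2 ≤
    η * (∑ a, x a ^ 2) * (∑ c, y c ^ 2)

omit [DecidableEq A] [DecidableEq A'] in
theorem small_Th {η : ℝ} (hs : Small h η) : Small (Th h A') η := by
  intro x y
  refine le_trans (le_of_eq ?_) (hs x y)
  simp [Fintype.sum_option, Fintype.sum_sum_type, Th]

omit [DecidableEq A] [DecidableEq A'] in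
theorem small_Tb {η : ℝ} (hs : Small b η) : Small (Tb b A) η := by
  intro x y
  refine le_trans (le_of_eq ?_) (hs x y)
  simp [Fintype.sum_option, Fintype.sum_sum_type, Tb]

theorem ratio_sq (hm : 0 < m) : SP (Fin m × Bool) m * SP (Fin m × Bool) m =
    16 ^ m / 4 * (cc (Fin m × Bool) m * cc (Fin m × Bool) m) := by
  obtain ⟨k, rfl⟩ : ∃ k, m = k + 1 := ⟨m - 1, by omega⟩
  rw [SP_ratio]
  have : (16 : ℝ) ^ (k + 1) / 4 = (2 ^ (2 * k + 1)) * (2 ^ (2 * k + 1)) := by
    have h1 : (16 : ℝ) ^ (k + 1) = 2 ^ (4 * (k + 1)) := by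
      rw [pow_mul]
      norm_num
    rw [← pow_add, show 2 * k + 1 + (2 * k + 1) = 4 * k + 2 by ring, h1,
      show 4 * (k + 1) = 4 * k + 2 + 2 by ring, pow_add _ (4 * k + 2)]
    norm_num
  rw [this]
  ring

/-- the families in the new basis -/
def cjf {I : Type} (U : Matrix (Fin m × Bool) (Fin m × Bool) ℝ)
    (T : I → Fin m × Bool → Fin m × Bool → ℝ) : I → Fin m × Bool → Fin m × Bool → ℝ :=
  fun k => cj U (T k)

omit [DecidableEq A] [DecidableEq A'] in
theorem mat_eq (U : Matrix (Fin m × Bool) (Fin m × Bool) ℝ)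
    (hU : ∀ i j, cj U H i j = if i = j then 1 else 0) (ζ : Option (A ⊕ A') → ℝ) :
    (Matrix.of fun i j => ∑ k, ((ζ k : ℂ) * om A A' k) * (cj U (BB H h b k) i j : ℂ)) =
      Matrix.of fun i j => (ζ none : ℂ) * (if i = j then 1 else 0) +
        HM (fun i j => ∑ k, ζ k * Th (cjf U h) A' k i j)
          (fun i j => ∑ k, ζ k * Tb (cjf U b) A k i j) i j := by
  ext i j
  simp only [Matrix.of_apply, HM_apply, Fintype.sum_option, Fintype.sum_sum_type, om, BB, Th, Tb,
    Option.elim, Sum.elim_inl, Sum.elim_inr, mul_zero, Finset.sum_const_zero, zero_add, add_zero,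
    mul_one, hU, cjf]
  push_cast
  rw [Finset.mul_sum]
  have h1 : ∀ a : A', Complex.I * ((ζ (some (Sum.inr a)) : ℂ) * (cj U (b a) i j : ℂ)) =
      (ζ (some (Sum.inr a)) : ℂ) * Complex.I * (cj U (b a) i j : ℂ) := fun a => by ring
  simp only [h1]
  split_ifs <;> push_cast <;> ring

/-- the abstract form of the argument -/
theorem core (hm : 0 < m) (U : Matrix (Fin m × Bool) (Fin m × Bool) ℝ)
    (hU : ∀ i j, cj U H i j = if i = j then 1 else 0) {ηh ηb : ℝ}
    (hh : Small (cjf U h) ηh) (hb : Small (cjf U b) ηb)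
    {L P Q : ℝ} (hP : 0 ≤ P) (hQ : 0 ≤ Q)
    (HH : ∀ (ζ : Option (A ⊕ A') → ℝ) (μ ν : ℝ), 0 ≤ μ → 0 ≤ ν →
      Bd (fun i j => ∑ k, ζ k * Th (cjf U h) A' k i j) μ →
      Bd (fun i j => ∑ k, ζ k * Tb (cjf U b) A k i j) ν →
      L * (ζ none ^ 2) ^ m ≤ (Matrix.det (Matrix.of fun i j =>
        (ζ none : ℂ) * (if i = j then 1 else 0) +
        HM (fun i j => ∑ k, ζ k * Th (cjf U h) A' k i j)
          (fun i j => ∑ k, ζ k * Tb (cjf U b) A k i j) i j)).re +
        (P * (μ ^ 2) ^ m + Q * (ν ^ 2) ^ m)) :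
    (2 * m).factorial * L ≤ U.det ^ 2 * Yf (CC H h b) +
      (2 * m).factorial * ((P * ηh ^ m + Q * ηb ^ m) * (16 ^ m / 4)) := by
  set c := cc (Fin m × Bool) m * cc (Fin m × Bool) m with hcdef
  have hc : 0 < c := by
    have := cc_pos (K := Fin m × Bool) m
    positivity
  set G : (Fin m × Bool → Option (A ⊕ A')) → ℝ := fun β =>
    (P * W2 (fun j : Fin m × Bool => Th (cjf U h) A' (β j)) +
      Q * W2 (fun j : Fin m × Bool => Tb (cjf U b) A (β j))) / c with hG
  have hGs : Sy G := by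
    intro π β
    simp only [hG]
    rw [W2_perm (fun j : Fin m × Bool => Th (cjf U h) A' (β j)) π,
      W2_perm (fun j : Fin m × Bool => Tb (cjf U b) A (β j)) π]
  have hw : ∀ k, om A A' k ^ 2 = (ww A A' k : ℂ) := by
    rintro (_ | a | a)
    · simp [om, ww]
    · simp [om, ww]
    · simp [om, ww]
  have h1 := Yf_bound' (om A A') (ww A A') hw (BB H h b) (U.det ^ 2) L G hGs fun ζ => by
    have e0 : U.det ^ 2 * (Matrix.det (Matrix.of fun i j =>
        ∑ k, (ζ k : ℂ) * om A A' k * (BB H h b k i j : ℂ))).re =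
        (Matrix.det (Matrix.of fun i j =>
        (ζ none : ℂ) * (if i = j then 1 else 0) +
        HM (fun i j => ∑ k, ζ k * Th (cjf U h) A' k i j)
          (fun i j => ∑ k, ζ k * Tb (cjf U b) A k i j) i j)).re := by
      rw [← mat_eq H h b U hU ζ, det_cj, Complex.re_ofReal_mul]
    rw [e0]
    have e1 : ∑ β : Fin m × Bool → Option (A ⊕ A'), (∏ j, ζ (β j)) * G β =
        (P * W2 (fun _ : Fin m × Bool => fun i j => ∑ k, ζ k * Th (cjf U h) A' k i j) +
        Q * W2 (fun _ : Fin m × Bool => fun i j => ∑ k, ζ k * Tb (cjf U b) A k i j)) / c := by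
      rw [← W2_expand, ← W2_expand, Finset.mul_sum, Finset.mul_sum, ← Finset.sum_add_distrib,
        Finset.sum_div]
      refine Finset.sum_congr rfl fun β _ => ?_
      simp only [hG]
      ring
    obtain ⟨μ, hμ, hμ'⟩ := exists_root hm (a := W2 (fun _ : Fin m × Bool =>
      fun i j => ∑ k, ζ k * Th (cjf U h) A' k i j) / c) (div_nonneg (W2_nonneg hm _) hc.le)
    obtain ⟨ν, hν, hν'⟩ := exists_root hm (a := W2 (fun _ : Fin m × Bool =>
      fun i j => ∑ k, ζ k * Tb (cjf U b) A k i j) / c) (div_nonneg (W2_nonneg hm _) hc.le)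
    have e2 := HH ζ μ ν hμ hν (bd_of_W2 hm _ hμ (by rw [hμ', ← hcdef, mul_div_cancel₀ _ hc.ne']))
      (bd_of_W2 hm _ hν (by rw [hν', ← hcdef, mul_div_cancel₀ _ hc.ne']))
    rw [e1, add_div, mul_div_assoc, mul_div_assoc, ← hμ', ← hν']
    exact e2
  rw [CC_eq] at h1
  have h2 : ∑ α : Fin m → Option (A ⊕ A'), G (fun x => α x.1) ≤
      (P * ηh ^ m + Q * ηb ^ m) * (16 ^ m / 4) := by
    simp only [hG]
    rw [← Finset.sum_div, Finset.sum_add_distrib, ← Finset.mul_sum, ← Finset.mul_sum,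
      div_le_iff₀ hc]
    have e1 := W2_upper (m := m) (Th (cjf U h) A') (small_Th _ hh)
    have e2 := W2_upper (m := m) (Tb (cjf U b) A) (small_Tb _ hb)
    rw [ratio_sq hm, ← hcdef] at e1 e2
    have e3 := mul_le_mul_of_nonneg_left e1 hP
    have e4 := mul_le_mul_of_nonneg_left e2 hQ
    calc _ ≤ P * (ηh ^ m * (16 ^ m / 4 * c)) + Q * (ηb ^ m * (16 ^ m / 4 * c)) :=
          add_le_add e3 e4
      _ = _ := by ring
  have h3 : (0 : ℝ) ≤ (2 * m).factorial := Nat.cast_nonneg _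
  have h4 := mul_le_mul_of_nonneg_left h2 h3
  linarith

/-- **Matrix form, general case.** -/
theorem core_gen (hm : 0 < m) (U : Matrix (Fin m × Bool) (Fin m × Bool) ℝ)
    (hU : ∀ i j, cj U H i j = if i = j then 1 else 0) (hsym : ∀ a i j, h a i j = h a j i)
    (hskew : ∀ a i j, b a i j = -b a j i) {t : ℝ} (ht0 : 0 < t) (ht1 : t < 1)
    (hh : Small (cjf U h) (t ^ 2 / 144)) (hb : Small (cjf U b) ((1 - t) ^ 2 / 144)) :
    (2 * m).factorial * (13 / 18 * (4 / 9) ^ m) ≤ U.det ^ 2 * Yf (CC H h b) := by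
  have h1t : 0 < 1 - t := by linarith
  set cst : ℝ := 4 ^ m + (4 / 9) ^ m with hcst
  have hcst0 : 0 < cst := by positivity
  have hcard : Fintype.card (Fin m × Bool) = 2 * m := by
    rw [Fintype.card_prod, Fintype.card_fin, Fintype.card_bool, mul_comm]
  have h1 := core H h b hm U hU hh hb (L := (4 / 9) ^ m) (P := cst * (t / (t ^ 2) ^ m))
    (Q := cst * ((1 - t) / ((1 - t) ^ 2) ^ m)) (by positivity) (by positivity)
    (by
      intro ζ μ ν hμ hν h1 h2
      have hH : (HM (fun i j => ∑ k, ζ k * Th (cjf U h) A' k i j)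
          (fun i j => ∑ k, ζ k * Tb (cjf U b) A k i j)).IsHermitian := by
        refine HM_herm (fun i j => ?_) (fun i j => ?_)
        · simp only [Fintype.sum_option, Fintype.sum_sum_type, Th, Option.elim, Sum.elim_inl,
            Sum.elim_inr, cjf, cj_symm (hsym _) i j]
        · simp only [Fintype.sum_option, Fintype.sum_sum_type, Tb, Option.elim, Sum.elim_inl,
            Sum.elim_inr, mul_zero, Finset.sum_const_zero, zero_add]
          rw [← Finset.sum_neg_distrib]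
          refine Finset.sum_congr rfl fun a _ => ?_
          rw [cjf, cj_skew (hskew a) i j]
          ring
      rw [det_shift_eig hH _ (by rw [hcard]; exact even_two_mul m), Complex.ofReal_re]
      have e1 := prod_lower (g := ζ none) (fun i => hH.eigenvalues i)
        (fun i => eig_bound hH h1 h2 i) hcard
      refine e1.trans ?_
      have e3 := conv_pow (m := m) ht0 ht1 hμ hν
      have e4 := mul_le_mul_of_nonneg_left e3 hcst0.le
      refine add_le_add le_rfl (e4.trans (le_of_eq ?_))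
      ring)
  have h2 : (cst * (t / (t ^ 2) ^ m) * (t ^ 2 / 144) ^ m +
      cst * ((1 - t) / ((1 - t) ^ 2) ^ m) * ((1 - t) ^ 2 / 144) ^ m) * (16 ^ m / 4) =
      ((4 / 9) ^ m + (4 / 81) ^ m) / 4 := by
    have e1 : ((4 : ℝ) / 9) ^ m = 4 ^ m * (16 ^ m / 144 ^ m) := by
      rw [← div_pow, ← mul_pow]
      norm_num
    have e2 : ((4 : ℝ) / 81) ^ m = (4 / 9) ^ m * (16 ^ m / 144 ^ m) := by
      rw [← div_pow, ← mul_pow]
      norm_num
    rw [div_pow, div_pow, hcst]
    have e5 : (t ^ 2) ^ m ≠ 0 := by positivity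
    have e6 : ((1 - t) ^ 2) ^ m ≠ 0 := by positivity
    have e7 : ((4 ^ m + (4 / 9) ^ m) * (t / (t ^ 2) ^ m) * ((t ^ 2) ^ m / 144 ^ m) +
        (4 ^ m + (4 / 9) ^ m) * ((1 - t) / ((1 - t) ^ 2) ^ m) *
          (((1 - t) ^ 2) ^ m / 144 ^ m)) * (16 ^ m / 4) =
        (4 ^ m * (16 ^ m / 144 ^ m) + (4 / 9) ^ m * (16 ^ m / 144 ^ m)) / 4 := by
      field_simp
      ring
    rw [e7, ← e1, ← e2]
  rw [h2] at h1
  have h3 : (4 / 81 : ℝ) ^ m ≤ 1 / 9 * (4 / 9) ^ m := by
    obtain ⟨k, rfl⟩ : ∃ k, m = k + 1 := ⟨m - 1, by omega⟩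
    have e1 : (4 / 81 : ℝ) ^ (k + 1) = (4 / 81) ^ k * (4 / 81) := pow_succ _ _
    have e2 : (4 / 9 : ℝ) ^ (k + 1) = (4 / 9) ^ k * (4 / 9) := pow_succ _ _
    have e3 : (4 / 81 : ℝ) ^ k ≤ (4 / 9) ^ k := pow_le_pow_left₀ (by norm_num) (by norm_num) k
    rw [e1, e2]
    linarith
  have h5 : (13 / 18 * (4 / 9) ^ m : ℝ) ≤ (4 / 9) ^ m -
      ((4 / 9) ^ m + (4 / 81) ^ m) / 4 := by
    linarith
  have h6 : (0 : ℝ) ≤ (2 * m).factorial := Nat.cast_nonneg _
  have h7 := mul_le_mul_of_nonneg_left h5 h6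
  linarith

end core

section skew

variable {A' : Type} [Fintype A'] [DecidableEq A']
  (H : Fin m × Bool → Fin m × Bool → ℝ)
  (b : A' → Fin m × Bool → Fin m × Bool → ℝ)

/-- no symmetric forms -/
def h0 : Empty → Fin m × Bool → Fin m × Bool → ℝ := fun k => k.elim

/-- **Matrix form, skew case.** -/
theorem core_skew (hm : 0 < m) (U : Matrix (Fin m × Bool) (Fin m × Bool) ℝ)
    (hU : ∀ i j, cj U H i j = if i = j then 1 else 0)
    (hskew : ∀ a i j, b a i j = -b a j i) (hb : Small (cjf U b) (1 / 32)) :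
    (2 * m).factorial * (5 / 8 * (1 / 2) ^ m) ≤ U.det ^ 2 * Yf (CC H h0 b) := by
  have hcard : Fintype.card (Fin m × Bool) = 2 * m := by
    rw [Fintype.card_prod, Fintype.card_fin, Fintype.card_bool, mul_comm]
  have hev : Even (Fintype.card (Fin m × Bool)) := by rw [hcard]; exact even_two_mul m
  have h1 := core H h0 b hm U hU (ηh := 0) (fun x y => by simp) hb (L := (1 / 2) ^ m)
    (P := 0) (Q := 1 + (1 / 2) ^ m) le_rfl (by positivity)
    (by
      intro ζ μ ν hμ hν h1 h2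
      have hz : (fun i j : Fin m × Bool => ∑ k, ζ k * Th (cjf U h0) A' k i j) =
          fun _ _ => 0 := by
        funext i j
        simp [Fintype.sum_option, Fintype.sum_sum_type, Th]
      set T : Fin m × Bool → Fin m × Bool → ℝ :=
        fun i j => ∑ k, ζ k * Tb (cjf U b) Empty k i j with hT
      rw [hz]
      have hTs : ∀ i j, T i j = -T j i := by
        intro i j
        simp only [hT, Fintype.sum_option, Fintype.sum_sum_type, Tb, Option.elim, Sum.elim_inl,
            Sum.elim_inr, mul_zero, Finset.sum_const_zero, zero_add]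
        rw [← Finset.sum_neg_distrib]
        refine Finset.sum_congr rfl fun a _ => ?_
        rw [cjf, cj_skew (hskew a) i j]
        ring
      have hH : (HM (fun _ _ : Fin m × Bool => (0 : ℝ)) T).IsHermitian :=
        HM_herm (fun i j => rfl) hTs
      have hb0 : Bd (fun _ _ : Fin m × Bool => (0 : ℝ)) 0 := by
        intro x y
        simp
      set g : ℝ := ζ none with hg
      have hD := det_shift_eig hH g hev
      have hDm := det_shift_eig hH (-g) hev
      have hsymm : ∏ i, (g + hH.eigenvalues i) = ∏ i, (g - hH.eigenvalues i) := by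
        have e1 : (Matrix.of fun i j : Fin m × Bool => ((-g : ℝ) : ℂ) * (if i = j then 1 else 0) +
            HM (fun _ _ => (0 : ℝ)) T i j) = -(Matrix.of fun i j : Fin m × Bool =>
            (g : ℂ) * (if i = j then 1 else 0) + HM (fun _ _ => (0 : ℝ)) T i j).transpose := by
          ext i j
          simp only [Matrix.of_apply, Matrix.neg_apply, Matrix.transpose_apply, HM_apply,
            hTs i j, eq_comm (a := j) (b := i)]
          push_cast
          ring
        rw [e1, Matrix.det_neg, hev.neg_one_pow, one_mul, Matrix.det_transpose, hD] at hDm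
        have e2 := Complex.ofReal_injective hDm
        rw [e2]
        have e3 : ∀ i, -g + hH.eigenvalues i = (-1) * (g - hH.eigenvalues i) := fun i => by ring
        rw [Finset.prod_congr rfl fun i _ => e3 i, Finset.prod_mul_distrib, Finset.prod_const,
          Finset.card_univ, hev.neg_one_pow, one_mul]
      rw [hD, Complex.ofReal_re]
      have e1 := prod_lower_symm (g := g) (l := ν) (fun i => hH.eigenvalues i)
        (fun i => by
          have := eig_bound hH hb0 h2 i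
          rwa [zero_add] at this) hν hcard hsymm
      linarith)
  have h2 : (0 * (0 : ℝ) ^ m + (1 + (1 / 2) ^ m) * (1 / 32) ^ m) * (16 ^ m / 4) =
      ((1 / 2) ^ m + (1 / 4) ^ m) / 4 := by
    have e1 : ((1 : ℝ) / 2) ^ m = (1 / 32) ^ m * 16 ^ m := by
      rw [← mul_pow]
      norm_num
    have e2 : ((1 : ℝ) / 4) ^ m = (1 / 2) ^ m * ((1 / 32) ^ m * 16 ^ m) := by
      rw [← mul_pow, ← mul_pow]
      norm_num
    rw [e2]
    rw [show ((1 : ℝ) / 2) ^ m + (1 / 2) ^ m * ((1 / 32) ^ m * 16 ^ m) =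
      (1 / 32) ^ m * 16 ^ m + (1 / 2) ^ m * ((1 / 32) ^ m * 16 ^ m) by rw [← e1]]
    ring
  rw [h2] at h1
  have h3 : (1 / 4 : ℝ) ^ m ≤ 1 / 2 * (1 / 2) ^ m := by
    obtain ⟨k, rfl⟩ : ∃ k, m = k + 1 := ⟨m - 1, by omega⟩
    have e1 : (1 / 4 : ℝ) ^ (k + 1) = (1 / 4) ^ k * (1 / 4) := pow_succ _ _
    have e2 : (1 / 2 : ℝ) ^ (k + 1) = (1 / 2) ^ k * (1 / 2) := pow_succ _ _
    have e3 : (1 / 4 : ℝ) ^ k ≤ (1 / 2) ^ k := pow_le_pow_left₀ (by norm_num) (by norm_num) k
    rw [e1, e2]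
    linarith
  have h5 : (5 / 8 * (1 / 2) ^ m : ℝ) ≤ (1 / 2) ^ m -
      ((1 / 2) ^ m + (1 / 4) ^ m) / 4 := by
    linarith
  have h6 : (0 : ℝ) ≤ (2 * m).factorial := Nat.cast_nonneg _
  have h7 := mul_le_mul_of_nonneg_left h5 h6
  linarith

end skew

end Pool.Agent.N509.HN
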