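import Pool.Agent.N509.HN.Ma

set_option autoImplicit false

/-!
# Determinants of Hermitian matrices shifted by a real number
-/

namespace Pool.Agent.N509.HN

open Finset

section herm

variable {J : Type} [Fintype J] [DecidableEq J]

/-- the Hermitian matrix with real part `h` and imaginary part `b` -/
def HM (h b : J → J → ℝ) : Matrix J J ℂ :=
  Matrix.of fun i j => (h i j : ℂ) + Complex.I * (b i j : ℂ)

omit [Fintype J] [DecidableEq J] in
theorem HM_apply (h b : J → J → ℝ) (i j : J) :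
    HM h b i j = (h i j : ℂ) + Complex.I * (b i j : ℂ) := rfl

omit [Fintype J] [DecidableEq J] in
theorem HM_herm {h b : J → J → ℝ} (hh : ∀ i j, h i j = h j i) (hb : ∀ i j, b i j = -b j i) :
    (HM h b).IsHermitian := by
  ext i j
  simp only [HM, Matrix.conjTranspose_apply, Matrix.of_apply, star_add, star_mul',
    Complex.star_def, Complex.conj_ofReal, Complex.conj_I]
  rw [hh j i, hb j i]
  push_cast
  ring

theorem det_shift_eig {A : Matrix J J ℂ} (hA : A.IsHermitian) (g : ℝ)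
    (hc : Even (Fintype.card J)) :
    (Matrix.of fun i j => (g : ℂ) * (if i = j then 1 else 0) + A i j).det =
      ((∏ i, (g + hA.eigenvalues i) : ℝ) : ℂ) := by
  have h1 : A.charpoly.eval (-(g : ℂ)) =
      (Matrix.of fun i j => (g : ℂ) * (if i = j then 1 else 0) + A i j).det := by
    rw [Matrix.eval_charpoly]
    have h2 : (Matrix.scalar J) (-(g : ℂ)) - A =
        -(Matrix.of fun i j => (g : ℂ) * (if i = j then 1 else 0) + A i j) := by
      ext i j
      by_cases h : i = j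
      · subst h
        simp
        ring
      · simp [h]
    rw [h2, Matrix.det_neg, hc.neg_one_pow, one_mul]
  rw [← h1, hA.charpoly_eq, Polynomial.eval_prod]
  push_cast
  have h3 : ∀ i, Polynomial.eval (-(g : ℂ)) (Polynomial.X - Polynomial.C ((hA.eigenvalues i : ℝ) : ℂ)) =
      (-1) * ((g : ℂ) + (hA.eigenvalues i : ℂ)) := by
    intro i
    simp
    ring
  have h4 : ∏ i, Polynomial.eval (-(g : ℂ)) (Polynomial.X - Polynomial.C ((hA.eigenvalues i : ℝ) : ℂ)) =
      ∏ i, ((g : ℂ) + (hA.eigenvalues i : ℂ)) := by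
    rw [Finset.prod_congr rfl fun i _ => h3 i, Finset.prod_mul_distrib, Finset.prod_const,
      Finset.card_univ, hc.neg_one_pow, one_mul]
  exact h4

/-- bound for a bilinear form -/
def Bd (T : J → J → ℝ) (μ : ℝ) : Prop :=
  ∀ x y : J → ℝ, |∑ a, ∑ b, x a * y b * T a b| ≤ μ / 2 * (∑ a, x a ^ 2 + ∑ a, y a ^ 2)

theorem eig_bound {h b : J → J → ℝ} (hA : (HM h b).IsHermitian) {μ ν : ℝ} (h1 : Bd h μ)
    (h2 : Bd b ν) (i : J) : |hA.eigenvalues i| ≤ μ + ν := by
  set v := hA.eigenvectorBasis i with hv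
  set x : J → ℝ := fun p => (v p).re with hx
  set y : J → ℝ := fun p => (v p).im with hy
  have hn : ∑ a, x a ^ 2 + ∑ a, y a ^ 2 = 1 := by
    have h3 : ‖v‖ = 1 := hA.eigenvectorBasis.orthonormal.1 i
    have h4 : ‖v‖ ^ 2 = ∑ a, ‖v a‖ ^ 2 := EuclideanSpace.norm_sq_eq v
    rw [h3, one_pow] at h4
    rw [h4, ← Finset.sum_add_distrib]
    refine Finset.sum_congr rfl fun a _ => ?_
    rw [← Complex.normSq_eq_norm_sq, Complex.normSq_apply]
    simp only [hx, hy]
    ring
  have h3 : hA.eigenvalues i = (∑ a, ∑ c, x a * x c * h a c) + (∑ a, ∑ c, y a * y c * h a c) -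
      (∑ a, ∑ c, x a * y c * b a c) + (∑ a, ∑ c, y a * x c * b a c) := by
    rw [hA.eigenvalues_eq i]
    simp only [dotProduct, Matrix.mulVec, Finset.mul_sum, Pi.star_apply, HM_apply,
      RCLike.re_to_complex, Complex.re_sum]
    rw [← Finset.sum_add_distrib, ← Finset.sum_sub_distrib, ← Finset.sum_add_distrib]
    refine Finset.sum_congr rfl fun a _ => ?_
    rw [← Finset.sum_add_distrib, ← Finset.sum_sub_distrib, ← Finset.sum_add_distrib]
    refine Finset.sum_congr rfl fun c _ => ?_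
    simp only [hx, hy, hv, Complex.star_def, Complex.mul_re, Complex.mul_im, Complex.add_re,
      Complex.add_im, Complex.conj_re, Complex.conj_im, Complex.ofReal_re, Complex.ofReal_im,
      Complex.I_re, Complex.I_im]
    ring
  have e1 := h1 x x
  have e2 := h1 y y
  have e3 := h2 x y
  have e4 := h2 y x
  rw [h3]
  have hn' : ∑ a, y a ^ 2 = 1 - ∑ a, x a ^ 2 := by linarith
  rw [abs_le] at *
  rw [hn'] at e2 e3 e4
  constructor
  · nlinarith [e1.1, e2.1, e3.2, e4.1]
  · nlinarith [e1.2, e2.2, e3.1, e4.2]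

end herm

section prods

variable {J : Type} [Fintype J]

theorem prod_pos_bound (θ : J → ℝ) {l g : ℝ} (hθ : ∀ i, |θ i| ≤ l)
    (hc : Even (Fintype.card J)) (hg : l < |g|) :
    (|g| - l) ^ Fintype.card J ≤ ∏ i, (g + θ i) := by
  have h0 : 0 ≤ |g| - l := by linarith
  rcases le_total 0 g with h | h
  · rw [abs_of_nonneg h] at h0 ⊢
    rw [← Finset.card_univ, ← Finset.prod_const]
    refine Finset.prod_le_prod (fun _ _ => h0) fun i _ => ?_
    have := (abs_le.1 (hθ i)).1
    linarith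
  · rw [abs_of_nonpos h] at h0 ⊢
    have h1 : ∏ i, (g + θ i) = ∏ i, (-g - θ i) := by
      have : ∀ i, g + θ i = (-1) * (-g - θ i) := fun i => by ring
      simp only [this, Finset.prod_mul_distrib, Finset.prod_const, Finset.card_univ,
        hc.neg_one_pow, one_mul]
    rw [h1, ← Finset.card_univ, ← Finset.prod_const]
    refine Finset.prod_le_prod (fun _ _ => h0) fun i _ => ?_
    have := (abs_le.1 (hθ i)).2
    linarith

/-- lower bound for the product, general case -/
theorem prod_lower (θ : J → ℝ) {l g : ℝ} {m : ℕ} (hθ : ∀ i, |θ i| ≤ l)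
    (hc : Fintype.card J = 2 * m) :
    (4 / 9) ^ m * (g ^ 2) ^ m ≤ ∏ i, (g + θ i) + (4 ^ m + (4 / 9) ^ m) * (l ^ 2) ^ m := by
  have hev : Even (Fintype.card J) := by rw [hc]; exact even_two_mul m
  rcases le_or_gt |g| l with h | h
  · have h1 : |∏ i, (g + θ i)| ≤ (4 * l ^ 2) ^ m := by
      rw [Finset.abs_prod]
      calc ∏ i, |g + θ i| ≤ ∏ _i : J, (2 * l) := by
            refine Finset.prod_le_prod (fun _ _ => abs_nonneg _) fun i _ => ?_
            calc |g + θ i| ≤ |g| + |θ i| := abs_add_le _ _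
              _ ≤ 2 * l := by linarith [hθ i]
        _ = (4 * l ^ 2) ^ m := by
            rw [Finset.prod_const, Finset.card_univ, hc, pow_mul]
            congr 1
            ring
    have h2 := (abs_le.1 h1).1
    have h3 : g ^ 2 ≤ l ^ 2 := by
      rw [← sq_abs]
      exact pow_le_pow_left₀ (abs_nonneg _) h 2
    have h4 : (g ^ 2) ^ m ≤ (l ^ 2) ^ m := pow_le_pow_left₀ (sq_nonneg _) h3 m
    have h5 : (4 / 9 : ℝ) ^ m * (g ^ 2) ^ m ≤ (4 / 9) ^ m * (l ^ 2) ^ m :=
      mul_le_mul_of_nonneg_left h4 (by positivity)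
    rw [mul_pow] at h2
    linarith
  · have h1 := prod_pos_bound θ hθ hev h
    rw [hc, pow_mul] at h1
    have h0 : 0 < |g| - l := by linarith
    rcases le_or_gt (2 / 3 * |g|) (|g| - l) with h2 | h2
    · have h3 : (4 / 9 : ℝ) ^ m * (g ^ 2) ^ m ≤ ((|g| - l) ^ 2) ^ m := by
        rw [← mul_pow]
        refine pow_le_pow_left₀ (by positivity) ?_ m
        have h4 := pow_le_pow_left₀ (by positivity) h2 2
        rw [mul_pow, sq_abs] at h4
        linarith
      have : 0 ≤ (4 ^ m + (4 / 9) ^ m : ℝ) * (l ^ 2) ^ m := by positivity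
      linarith
    · have h3 : (4 / 9 : ℝ) ^ m * (g ^ 2) ^ m ≤ 4 ^ m * (l ^ 2) ^ m := by
        rw [← mul_pow, ← mul_pow]
        refine pow_le_pow_left₀ (by positivity) ?_ m
        have h4 : |g| ≤ 3 * l := by linarith
        have h5 := pow_le_pow_left₀ (abs_nonneg _) h4 2
        rw [sq_abs] at h5
        linarith
      have h6 : 0 ≤ ((|g| - l) ^ 2) ^ m := by positivity
      have h7 : 0 ≤ (4 / 9 : ℝ) ^ m * (l ^ 2) ^ m := by positivity
      linarith

/-- lower bound for the product, symmetric spectrum -/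
theorem prod_lower_symm (θ : J → ℝ) {l g : ℝ} {m : ℕ} (hθ : ∀ i, |θ i| ≤ l)
    (hl : 0 ≤ l) (hc : Fintype.card J = 2 * m) (hs : ∏ i, (g + θ i) = ∏ i, (g - θ i)) :
    (1 / 2) ^ m * (g ^ 2) ^ m ≤ ∏ i, (g + θ i) + (1 + (1 / 2) ^ m) * (l ^ 2) ^ m := by
  have hev : Even (Fintype.card J) := by rw [hc]; exact even_two_mul m
  have hsq : (∏ i, (g + θ i)) ^ 2 = ∏ i, (g ^ 2 - θ i ^ 2) := by
    have h1 : ∏ i, (g ^ 2 - θ i ^ 2) = (∏ i, (g + θ i)) * ∏ i, (g - θ i) := by
      rw [← Finset.prod_mul_distrib]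
      exact Finset.prod_congr rfl fun i _ => by ring
    rw [h1, ← hs, sq]
  have hθ2 : ∀ i, θ i ^ 2 ≤ l ^ 2 := fun i => by
    rw [← sq_abs]
    exact pow_le_pow_left₀ (abs_nonneg _) (hθ i) 2
  rcases le_or_gt |g| l with h | h
  · have h3 : g ^ 2 ≤ l ^ 2 := by
      rw [← sq_abs]
      exact pow_le_pow_left₀ (abs_nonneg _) h 2
    have h1 : (∏ i, (g + θ i)) ^ 2 ≤ ((l ^ 2) ^ m) ^ 2 := by
      rw [hsq]
      calc ∏ i, (g ^ 2 - θ i ^ 2) ≤ |∏ i, (g ^ 2 - θ i ^ 2)| := le_abs_self _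
        _ = ∏ i, |g ^ 2 - θ i ^ 2| := Finset.abs_prod _ _
        _ ≤ ∏ _i : J, l ^ 2 := by
            refine Finset.prod_le_prod (fun _ _ => abs_nonneg _) fun i _ => ?_
            rw [abs_le]
            constructor
            · nlinarith [hθ2 i, sq_nonneg g]
            · nlinarith [sq_nonneg (θ i)]
        _ = ((l ^ 2) ^ m) ^ 2 := by
            rw [Finset.prod_const, Finset.card_univ, hc]
            ring
    have h2 : |∏ i, (g + θ i)| ≤ (l ^ 2) ^ m := abs_le_of_sq_le_sq h1 (by positivity)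
    have h4 := (abs_le.1 h2).1
    have h5 : (g ^ 2) ^ m ≤ (l ^ 2) ^ m := pow_le_pow_left₀ (sq_nonneg _) h3 m
    have h6 : (1 / 2 : ℝ) ^ m * (g ^ 2) ^ m ≤ (1 / 2) ^ m * (l ^ 2) ^ m :=
      mul_le_mul_of_nonneg_left h5 (by positivity)
    linarith
  · have h1 := prod_pos_bound θ hθ hev h
    have h0 : 0 < |g| - l := by linarith
    have hpos : 0 ≤ ∏ i, (g + θ i) := le_trans (by positivity) h1
    have hgl : l ^ 2 ≤ g ^ 2 := by
      rw [← sq_abs g]
      exact pow_le_pow_left₀ hl h.le 2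
    have h2 : (g ^ 2 - l ^ 2) ^ m ≤ ∏ i, (g + θ i) := by
      have h3 : ((g ^ 2 - l ^ 2) ^ m) ^ 2 ≤ (∏ i, (g + θ i)) ^ 2 := by
        rw [hsq, ← pow_mul, mul_comm m 2, ← hc, ← Finset.card_univ, ← Finset.prod_const]
        refine Finset.prod_le_prod (fun _ _ => by linarith) fun i _ => ?_
        linarith [hθ2 i]
      exact (abs_le_of_sq_le_sq h3 hpos |> (le_abs_self _).trans)
    rcases le_or_gt (1 / 2 * g ^ 2) (g ^ 2 - l ^ 2) with h3 | h3
    · have h4 : (1 / 2 : ℝ) ^ m * (g ^ 2) ^ m ≤ (g ^ 2 - l ^ 2) ^ m := by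
        rw [← mul_pow]
        exact pow_le_pow_left₀ (by positivity) h3 m
      have : 0 ≤ (1 + (1 / 2) ^ m : ℝ) * (l ^ 2) ^ m := by positivity
      linarith
    · have h4 : (1 / 2 : ℝ) ^ m * (g ^ 2) ^ m ≤ (l ^ 2) ^ m := by
        rw [← mul_pow]
        exact pow_le_pow_left₀ (by positivity) (by linarith) m
      have h5 : 0 ≤ (1 / 2 : ℝ) ^ m * (l ^ 2) ^ m := by positivity
      linarith

end prods

end Pool.Agent.N509.HN
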