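import Pool.Agent.N509.HN.Fr

set_option autoImplicit false

/-!
# The pinching theorems and the integrated forms
-/

namespace Pool.Agent.N509.HN

open Finset Pool.Agent.W666.GB Pool.Agent.W669.HD Pool.Agent.Y519.HB MeasureTheory
open Pool.Agent.R770.NS (SymForm knSq)

section frame

variable {V : Type} [NormedAddCommGroup V] [InnerProductSpace ℝ V] {m : ℕ}

/-- `R = - κ + E₁ + E₂` (`κ` stands for `κ` times the unit tensor), where the curvature operator of
`E₁` is nonnegative and its sectional curvatures are at most `((1 - t)² / 144) κ`, and `E₂` is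
bounded in all orthonormal frames: the matrix of its sectional curvatures in the frame is at most
`(t² / 144) κ (1 + T / 2)`, `T` being the matrix all of whose entries are one. -/
def FramePinched (m : ℕ) (κ : ℝ) (R : V → V → V → V → ℝ) : Prop :=
  ∃ (t : ℝ) (E₁ E₂ : V → V → V → V → ℝ), 0 < t ∧ t < 1 ∧ AlgCurv E₁ ∧ AlgCurv E₂ ∧
    OpNonneg E₁ ∧
    (∀ x y : V, ‖x‖ = 1 → ‖y‖ = 1 → inner ℝ x y = 0 → E₁ x y x y ≤ (1 - t) ^ 2 / 144 * κ) ∧
    FrameBound (Fin m × Bool) (t ^ 2 / 144 * κ) E₂ ∧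
    ∀ x y z w, R x y z w = E₁ x y z w + E₂ x y z w - κ * unitT x y z w

theorem sec_bound {N : V → V → V → V → ℝ} (hN : AlgCurv N) (hop : OpNonneg N) {η : ℝ}
    (hη : 0 ≤ η)
    (hs : ∀ x y : V, ‖x‖ = 1 → ‖y‖ = 1 → inner ℝ x y = 0 → N x y x y ≤ η) (x y : V) :
    N x y x y ≤ η * (‖x‖ ^ 2 * ‖y‖ ^ 2) := by
  have h1 : SecIn N (-η) η := by
    intro x y hx hy hxy
    refine ⟨?_, hs x y hx hy hxy⟩
    have h3 := hop 1 (fun _ => x) (fun _ => y)
    simp only [Finset.univ_unique, Finset.sum_singleton] at h3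
    linarith
  exact (abs_le.1 (hN.sec_all hη h1 x y)).2

theorem gk_self {κ : ℝ} (x : V) : gk κ x x = √κ * ‖x‖ ^ 2 := by
  simp only [gk]
  rw [real_inner_self_eq_norm_sq]

theorem frame_gen (e : OrthonormalBasis (Fin m × Bool) ℝ V) {κ : ℝ} (hκ : 0 ≤ κ)
    {R : V → V → V → V → ℝ} (h : FramePinched m κ R) : GenNear (gk κ) R := by
  obtain ⟨t, E₁, E₂, ht0, ht1, h1, h2, hop, hs, hf, hR⟩ := h
  obtain ⟨p, k, hk, hkE, hkx⟩ := frame_forms e h2 hf
  have hκ2 : √κ ^ 2 = κ := Real.sq_sqrt hκ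
  refine ⟨t, p, k, E₁, ht0, ht1, hk, h1, hop, fun x => ?_, fun x y => ?_, fun x y z w => ?_⟩
  · rw [hkx, gk_self]
    refine le_of_eq ?_
    linear_combination (-(t ^ 2 / 144 * (‖x‖ ^ 2) ^ 2)) * hκ2
  · rw [gk_self, gk_self]
    have h3 := sec_bound h1 hop (by positivity) hs x y
    refine h3.trans (le_of_eq ?_)
    linear_combination (-((1 - t) ^ 2 / 144 * (‖x‖ ^ 2 * ‖y‖ ^ 2))) * hκ2
  · rw [hR, hkE, knSq_gk hκ]
    ring

/-- One of the two pinching conditions. -/
def Pinched (m : ℕ) (κ : ℝ) (R : V → V → V → V → ℝ) : Prop :=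
  OpPinched κ R ∨ FramePinched m κ R

theorem pinched_near (e : OrthonormalBasis (Fin m × Bool) ℝ V) {κ : ℝ} (hκ : 0 ≤ κ)
    {R : V → V → V → V → ℝ} (h : Pinched m κ R) : HopfNear R := by
  rcases h with h | h
  · exact ⟨gk κ, gk_pos, Or.inr (pinched_skew hκ h)⟩
  · exact ⟨gk κ, gk_pos, Or.inl (frame_gen e hκ h)⟩

theorem pinched_lower (e : OrthonormalBasis (Fin m × Bool) ℝ V) {κ : ℝ} (hκ : 0 ≤ κ)
    {R : V → V → V → V → ℝ} (h : Pinched m κ R) :
    5 / 8 * (4 / 9) ^ m * roundGB m κ ≤ (-1) ^ m * gbc e R := by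
  have hr : 0 ≤ roundGB m κ := roundGB_nonneg hκ
  have hdt : (Matrix.of (fm e (gk κ))).det = κ ^ m := dt_gk e hκ
  rcases h with h | h
  · have h1 := skew_bound e gk_pos (pinched_skew hκ h)
    rw [hdt, mul_assoc, roundGB_mul] at h1
    refine le_trans ?_ h1
    refine mul_le_mul_of_nonneg_right ?_ hr
    have : (4 / 9 : ℝ) ^ m ≤ (1 / 2) ^ m := pow_le_pow_left₀ (by norm_num) (by norm_num) m
    linarith
  · have h1 := gen_bound e gk_pos (frame_gen e hκ h)
    rw [hdt, mul_assoc, roundGB_mul] at h1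
    refine le_trans ?_ h1
    refine mul_le_mul_of_nonneg_right ?_ hr
    have : (0 : ℝ) < (4 / 9) ^ m := by positivity
    linarith

/-- pinched tensors, minus squares, minus a multiple of the unit tensor -/
theorem pinched_super (hm : 0 < m) (e : OrthonormalBasis (Fin m × Bool) ℝ V) {κ : ℝ}
    (hκ : 0 ≤ κ) {S R : V → V → V → V → ℝ} (h : Pinched m κ S) {δ : ℝ} (hδ : 0 ≤ δ) {n : ℕ}
    {x y : Fin n → V} (hR : ∀ a b c d, R a b c d = S a b c d -
      (∑ k, sqDec (x k) (y k) a b c d) - δ * unitT a b c d) :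
    5 / 8 * (4 / 9) ^ m * roundGB m κ + roundGB m δ ≤ (-1) ^ m * gbc e R :=
  near_super hm e (pinched_near e hκ h) hδ hR (pinched_lower e hκ h)

/-- general form -/
theorem gen_super (hm : 0 < m) (e : OrthonormalBasis (Fin m × Bool) ℝ V) {g : V → V → ℝ}
    (hg : PosForm g) {S R : V → V → V → V → ℝ} (h : GenNear g S ∨ SkewNear g S) {δ : ℝ}
    (hδ : 0 ≤ δ) {n : ℕ} {x y : Fin n → V} (hR : ∀ a b c d, R a b c d = S a b c d -
      (∑ k, sqDec (x k) (y k) a b c d) - δ * unitT a b c d) :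
    5 / 8 * (4 / 9) ^ m * dt e g * roundGB m 1 + roundGB m δ ≤ (-1) ^ m * gbc e R := by
  refine near_super hm e ⟨g, hg, h⟩ hδ hR ?_
  have hr : 0 ≤ roundGB m 1 := roundGB_nonneg zero_le_one
  have hd : 0 ≤ dt e g := dt_nonneg e hg
  rcases h with h | h
  · refine le_trans ?_ (gen_bound e hg h)
    refine mul_le_mul_of_nonneg_right ?_ hr
    refine mul_le_mul_of_nonneg_right ?_ hd
    have : (0 : ℝ) < (4 / 9) ^ m := by positivity
    linarith
  · refine le_trans ?_ (skew_bound e hg h)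
    refine mul_le_mul_of_nonneg_right ?_ hr
    refine mul_le_mul_of_nonneg_right ?_ hd
    have : (4 / 9 : ℝ) ^ m ≤ (1 / 2) ^ m := pow_le_pow_left₀ (by norm_num) (by norm_num) m
    linarith

end frame

section fields

variable {m : ℕ} {M : Type} [MeasurableSpace M]

theorem field_blocks (μ : Measure M) (K : CurvField m M) (h : ∀ p, NearBlocks 0 (K.R p)) :
    0 ≤ (-1) ^ m * ∫ p, K.gb p ∂μ := by
  rw [← integral_const_mul]
  exact integral_nonneg fun p => (roundGB_nonneg le_rfl).trans (blocks_bound (K.e p) le_rfl (h p))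

theorem field_pinched (μ : Measure M) (K : CurvField m M) (κ : M → ℝ)
    (h : ∀ p, 0 < κ p ∧ Pinched m (κ p) (K.R p)) (hi : Integrable K.gb μ) (hμ : μ ≠ 0) :
    0 < (-1) ^ m * ∫ p, K.gb p ∂μ := by
  have hpos : ∀ p, 0 < (-1) ^ m * K.gb p := fun p => by
    have h1 := pinched_lower (K.e p) (h p).1.le (h p).2
    have h2 := roundGB_pos (m := m) (h p).1
    refine lt_of_lt_of_le ?_ h1
    positivity
  rw [← integral_const_mul]
  rw [integral_pos_iff_support_of_nonneg (fun p => (hpos p).le) (hi.const_mul _)]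
  have hs : (Function.support fun p => (-1) ^ m * K.gb p) = Set.univ := by
    ext p
    simp only [Function.mem_support, Set.mem_univ, iff_true]
    exact (hpos p).ne'
  rw [hs]
  rw [pos_iff_ne_zero]
  simpa using hμ

theorem field_lower (μ : Measure M) [IsFiniteMeasure μ] (K : CurvField m M) {κ : ℝ} (hκ : 0 ≤ κ)
    (h : ∀ p, Pinched m κ (K.R p)) (hi : Integrable K.gb μ) :
    5 / 8 * (4 / 9) ^ m * roundGB m κ * μ.real Set.univ ≤ (-1) ^ m * ∫ p, K.gb p ∂μ := by
  rw [← integral_const_mul]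
  have h1 : 5 / 8 * (4 / 9) ^ m * roundGB m κ * μ.real Set.univ =
      ∫ _, 5 / 8 * (4 / 9) ^ m * roundGB m κ ∂μ := by
    rw [integral_const, smul_eq_mul, mul_comm]
  rw [h1]
  exact integral_mono (integrable_const _) (hi.const_mul _) fun p =>
    pinched_lower (K.e p) hκ (h p)

end fields

end Pool.Agent.N509.HN
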