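import Pool.Agent.N509.HN.Ap

set_option autoImplicit false

/-!
# Bounds in orthonormal frames (the curvature operator of the second kind)
-/

namespace Pool.Agent.N509.HN

open Finset Pool.Agent.W666.GB Pool.Agent.W669.HD Pool.Agent.Y519.HB
open Pool.Agent.R770.NS (SymForm knSq)

section spectral

variable {J : Type} [Fintype J] [DecidableEq J]

theorem spectral_entries (A : Matrix J J ℝ) (hA : A.IsHermitian) (i j : J) :
    A i j = ∑ a, hA.eigenvalues a * (hA.eigenvectorBasis a i * hA.eigenvectorBasis a j) := by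
  conv_lhs => rw [hA.spectral_theorem]
  rw [Unitary.conjStarAlgAut_apply, Matrix.mul_apply]
  refine Finset.sum_congr rfl fun a _ => ?_
  rw [Matrix.mul_diagonal, Matrix.star_apply]
  simp only [Matrix.IsHermitian.eigenvectorUnitary_apply, Function.comp_apply, star_trivial,
    RCLike.ofReal_real_eq_id, id_eq]
  ring

theorem basis_dot {v : OrthonormalBasis J ℝ (EuclideanSpace ℝ J)} (a b : J) :
    ∑ i, v a i * v b i = if a = b then 1 else 0 := by
  have h1 := orthonormal_iff_ite.1 v.orthonormal a b
  rw [← h1, PiLp.inner_apply]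
  refine Finset.sum_congr rfl fun i _ => ?_
  simp [mul_comm]

end spectral

section frames

variable {V : Type} [NormedAddCommGroup V] [InnerProductSpace ℝ V] {J : Type} [Fintype J]
  [DecidableEq J]

/-- In every orthonormal basis `f` the matrix of the numbers `E(f_a, f_b, f_a, f_b)` is at most
`δ (1 + T / 2)`, where `T` is the matrix all of whose entries are one. -/
def FrameBound (J : Type) [Fintype J] (δ : ℝ) (E : V → V → V → V → ℝ) : Prop :=
  ∀ (f : OrthonormalBasis J ℝ V) (c : J → ℝ),
    ∑ a, ∑ b, c a * c b * E (f a) (f b) (f a) (f b) ≤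
      δ * (∑ a, c a ^ 2 + (∑ a, c a) ^ 2 / 2)

/-- the form on symmetric tensors -/
noncomputable def MM (e : OrthonormalBasis J ℝ V) (E : V → V → V → V → ℝ) (δ : ℝ)
    (p q : J × J) : ℝ :=
  -(1 / 3) * (E (e p.1) (e q.1) (e p.2) (e q.2) + E (e p.1) (e q.2) (e p.2) (e q.1)) +
    δ / 3 * ((if p.1 = p.2 then 1 else 0) * (if q.1 = q.2 then 1 else 0) +
      (if p.1 = q.1 then 1 else 0) * (if p.2 = q.2 then 1 else 0) +
      (if p.1 = q.2 then 1 else 0) * (if p.2 = q.1 then 1 else 0))

variable (e : OrthonormalBasis J ℝ V) {E : V → V → V → V → ℝ}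

omit [Fintype J] [DecidableEq J] in
theorem a34' (hE : AlgCurv E) (x y z w : V) : E x y w z = -E x y z w := by
  rw [← hE.pair x y w z, hE.anti z w, hE.pair x y z w]

omit [Fintype J] [DecidableEq J] in
theorem a1234 (hE : AlgCurv E) (x y z w : V) : E y x w z = E x y z w := by
  rw [hE.anti x y w z, a34' hE]
  ring

theorem MM_symm (hE : AlgCurv E) (δ : ℝ) (p q : J × J) :
    MM e E δ p q = MM e E δ q p := by
  have h1 : E (e q.1) (e p.1) (e q.2) (e p.2) = E (e p.1) (e q.1) (e p.2) (e q.2) :=
    a1234 hE _ _ _ _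
  have h2 : E (e q.1) (e p.2) (e q.2) (e p.1) = E (e p.1) (e q.2) (e p.2) (e q.1) := by
    rw [← hE.pair (e q.1) (e p.2) (e q.2) (e p.1), a1234 hE]
  simp only [MM, h1, h2, eq_comm (a := q.1) (b := p.1), eq_comm (a := q.2) (b := p.2),
    eq_comm (a := q.1) (b := p.2), eq_comm (a := q.2) (b := p.1)]
  ring

theorem MM_swap (hE : AlgCurv E) (δ : ℝ) (p q : J × J) :
    MM e E δ p.swap q = MM e E δ p q := by
  have h1 : E (e p.2) (e q.1) (e p.1) (e q.2) = E (e p.1) (e q.2) (e p.2) (e q.1) := hE.pair _ _ _ _
  have h2 : E (e p.2) (e q.2) (e p.1) (e q.1) = E (e p.1) (e q.1) (e p.2) (e q.2) := hE.pair _ _ _ _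
  simp only [MM, Prod.fst_swap, Prod.snd_swap, h1, h2, eq_comm (a := p.2) (b := p.1)]
  ring

/-- the value at a symmetric matrix in terms of an orthonormal basis of eigenvectors -/
theorem MM_value (hE : AlgCurv E) (δ : ℝ) (v : OrthonormalBasis J ℝ
    (EuclideanSpace ℝ J)) (c : J → ℝ)
    (f : J → V) (hf : ∀ a, f a = ∑ i, v a i • e i) :
    ∑ p, ∑ q, MM e E δ p q * ((∑ a, c a * (v a p.1 * v a p.2)) *
      (∑ b, c b * (v b q.1 * v b q.2))) =
      -(2 / 3) * (∑ a, ∑ b, c a * c b * E (f a) (f b) (f a) (f b)) +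
        δ / 3 * ((∑ a, c a) ^ 2 + 2 * ∑ a, c a ^ 2) := by
  have key : ∀ a b, ∑ p, ∑ q, MM e E δ p q * ((v a p.1 * v a p.2) * (v b q.1 * v b q.2)) =
      -(2 / 3) * E (f a) (f b) (f a) (f b) + δ / 3 * (1 + 2 * (if a = b then 1 else 0)) := by
    intro a b
    have h1 : ∑ p : J × J, ∑ q : J × J,
        E (e p.1) (e q.1) (e p.2) (e q.2) * ((v a p.1 * v a p.2) * (v b q.1 * v b q.2)) =
        E (f a) (f b) (f a) (f b) := by
      rw [hf a, hf b, R_ev4 hE, ev4_eq, Fintype.sum_prod_type]
      refine Finset.sum_congr rfl fun i _ => ?_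
      simp only [Fintype.sum_prod_type]
      rw [Finset.sum_comm]
      refine Finset.sum_congr rfl fun j _ => Finset.sum_congr rfl fun k _ =>
        Finset.sum_congr rfl fun l _ => ?_
      ring
    have h2 : ∑ p : J × J, ∑ q : J × J,
        E (e p.1) (e q.2) (e p.2) (e q.1) * ((v a p.1 * v a p.2) * (v b q.1 * v b q.2)) =
        E (f a) (f b) (f a) (f b) := by
      rw [← h1]
      refine Finset.sum_congr rfl fun p _ => ?_
      rw [← Equiv.sum_comp (Equiv.prodComm J J)]
      refine Finset.sum_congr rfl fun q _ => ?_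
      simp only [Equiv.prodComm_apply, Prod.fst_swap, Prod.snd_swap]
      ring
    have hn : ∀ a b, ∑ i, v a i * v b i = if a = b then 1 else 0 := fun a b => basis_dot a b
    have h3 : ∑ p : J × J, ∑ q : J × J,
        ((if p.1 = p.2 then (1 : ℝ) else 0) * (if q.1 = q.2 then 1 else 0)) *
          ((v a p.1 * v a p.2) * (v b q.1 * v b q.2)) = 1 := by
      have e1 : ∀ a, ∑ p : J × J,
          (if p.1 = p.2 then (1 : ℝ) else 0) * (v a p.1 * v a p.2) = 1 := by
        intro a
        rw [Fintype.sum_prod_type]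
        simp only [ite_mul, one_mul, zero_mul, Finset.sum_ite_eq, Finset.mem_univ, if_true]
        rw [hn, if_pos rfl]
      calc _ = (∑ p : J × J,
            (if p.1 = p.2 then (1 : ℝ) else 0) * (v a p.1 * v a p.2)) *
          ∑ q : J × J,
            (if q.1 = q.2 then (1 : ℝ) else 0) * (v b q.1 * v b q.2) := by
            rw [Finset.sum_mul_sum]
            refine Finset.sum_congr rfl fun p _ => Finset.sum_congr rfl fun q _ => ?_
            ring
        _ = 1 := by rw [e1, e1, one_mul]
    have h4 : ∑ p : J × J, ∑ q : J × J,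
        ((if p.1 = q.1 then (1 : ℝ) else 0) * (if p.2 = q.2 then 1 else 0)) *
          ((v a p.1 * v a p.2) * (v b q.1 * v b q.2)) = if a = b then 1 else 0 := by
      have e1 : ∀ p : J × J,
          ∑ q : J × J,
          ((if p.1 = q.1 then (1 : ℝ) else 0) * (if p.2 = q.2 then 1 else 0)) *
          ((v a p.1 * v a p.2) * (v b q.1 * v b q.2)) =
          (v a p.1 * v b p.1) * (v a p.2 * v b p.2) := by
        intro p
        rw [Finset.sum_eq_single p]
        · simp only [if_true]
          ring
        · intro q _ hq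
          by_cases h : p.1 = q.1
          · have : p.2 ≠ q.2 := fun h2 => hq (Prod.ext h h2).symm
            rw [if_neg this]
            ring
          · rw [if_neg h]
            ring
        · intro h
          exact absurd (Finset.mem_univ _) h
      simp only [e1]
      rw [Fintype.sum_prod_type]
      change ∑ x, ∑ y, (v a x * v b x) * (v a y * v b y) = _
      rw [← Finset.sum_mul_sum, hn]
      split_ifs <;> ring
    have h5 : ∑ p : J × J, ∑ q : J × J,
        ((if p.1 = q.2 then (1 : ℝ) else 0) * (if p.2 = q.1 then 1 else 0)) *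
          ((v a p.1 * v a p.2) * (v b q.1 * v b q.2)) = if a = b then 1 else 0 := by
      rw [← h4]
      refine Finset.sum_congr rfl fun p _ => ?_
      rw [← Equiv.sum_comp (Equiv.prodComm J J)]
      refine Finset.sum_congr rfl fun q _ => ?_
      change ((if p.1 = q.1 then (1 : ℝ) else 0) * (if p.2 = q.2 then 1 else 0)) *
        ((v a p.1 * v a p.2) * (v b q.2 * v b q.1)) = _
      ring
    have h6 : ∀ p q : J × J,
        MM e E δ p q * ((v a p.1 * v a p.2) * (v b q.1 * v b q.2)) =
        -(1 / 3) * (E (e p.1) (e q.1) (e p.2) (e q.2) * ((v a p.1 * v a p.2) *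
          (v b q.1 * v b q.2))) +
        -(1 / 3) * (E (e p.1) (e q.2) (e p.2) (e q.1) * ((v a p.1 * v a p.2) *
          (v b q.1 * v b q.2))) +
        δ / 3 * (((if p.1 = p.2 then (1 : ℝ) else 0) * (if q.1 = q.2 then 1 else 0)) *
          ((v a p.1 * v a p.2) * (v b q.1 * v b q.2))) +
        δ / 3 * (((if p.1 = q.1 then (1 : ℝ) else 0) * (if p.2 = q.2 then 1 else 0)) *
          ((v a p.1 * v a p.2) * (v b q.1 * v b q.2))) +
        δ / 3 * (((if p.1 = q.2 then (1 : ℝ) else 0) * (if p.2 = q.1 then 1 else 0)) *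
          ((v a p.1 * v a p.2) * (v b q.1 * v b q.2))) := by
      intro p q
      unfold MM
      ring
    simp only [h6, Finset.sum_add_distrib, ← Finset.mul_sum, h1, h2, h3, h4, h5]
    ring
  have h7 : ∀ p q : J × J,
      MM e E δ p q * ((∑ a, c a * (v a p.1 * v a p.2)) * (∑ b, c b * (v b q.1 * v b q.2))) =
      ∑ a, ∑ b, c a * c b * (MM e E δ p q * ((v a p.1 * v a p.2) * (v b q.1 * v b q.2))) := by
    intro p q
    rw [Finset.sum_mul_sum, Finset.mul_sum]
    refine Finset.sum_congr rfl fun a _ => ?_
    rw [Finset.mul_sum]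
    refine Finset.sum_congr rfl fun b _ => ?_
    ring
  simp only [h7]
  rw [Finset.sum_congr rfl fun p _ => Finset.sum_comm, Finset.sum_comm]
  rw [Finset.sum_congr rfl fun a _ => Finset.sum_congr rfl fun p _ => Finset.sum_comm]
  rw [Finset.sum_congr rfl fun a _ => Finset.sum_comm]
  simp only [← Finset.mul_sum, key]
  have h8 : ∀ a b, c a * c b * (-(2 / 3) * E (f a) (f b) (f a) (f b) +
      δ / 3 * (1 + 2 * (if a = b then 1 else 0))) =
      -(2 / 3) * (c a * c b * E (f a) (f b) (f a) (f b)) + δ / 3 * (c a * c b) +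
        δ / 3 * 2 * (if a = b then c a * c b else 0) := by
    intro a b
    split_ifs <;> ring
  simp only [h8, Finset.sum_add_distrib, ← Finset.mul_sum, Finset.sum_ite_eq, Finset.mem_univ,
    if_true]
  rw [← Finset.sum_mul]
  simp only [sq]
  ring

/-- the form is positive semidefinite -/
theorem MM_psd (hE : AlgCurv E) {δ : ℝ} (h : FrameBound J δ E)
    (X : J × J → ℝ) :
    0 ≤ ∑ p, ∑ q, MM e E δ p q * (X p * X q) := by
  have hsw : ∀ Y Z : J × J → ℝ,
      ∑ p, ∑ q, MM e E δ p q * (Y p.swap * Z q) = ∑ p, ∑ q, MM e E δ p q * (Y p * Z q) := by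
    intro Y Z
    rw [← Equiv.sum_comp (Equiv.prodComm J J)]
    refine Finset.sum_congr rfl fun p _ => Finset.sum_congr rfl fun q _ => ?_
    simp only [Equiv.prodComm_apply, MM_swap e hE, Prod.swap_swap]
  have hsy : ∀ Y Z : J × J → ℝ,
      ∑ p, ∑ q, MM e E δ p q * (Y p * Z q) = ∑ p, ∑ q, MM e E δ p q * (Z p * Y q) := by
    intro Y Z
    rw [Finset.sum_comm]
    refine Finset.sum_congr rfl fun p _ => Finset.sum_congr rfl fun q _ => ?_
    rw [MM_symm e hE δ q p]
    ring
  set A : Matrix J J ℝ :=
    Matrix.of fun i j => (X (i, j) + X (j, i)) / 2 with hA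
  have hAh : A.IsHermitian := by
    ext i j
    simp only [hA, Matrix.conjTranspose_apply, Matrix.of_apply, star_trivial]
    ring
  have h1 : ∑ p, ∑ q, MM e E δ p q * (X p * X q) =
      ∑ p, ∑ q, MM e E δ p q * (A p.1 p.2 * A q.1 q.2) := by
    have e1 := hsw X X
    have e2 : ∑ p, ∑ q, MM e E δ p q * (X p * X q.swap) =
        ∑ p, ∑ q, MM e E δ p q * (X p * X q) := by
      rw [hsy X (fun q => X q.swap)]
      exact hsw X X
    have e3 : ∑ p, ∑ q, MM e E δ p q * (X p.swap * X q.swap) =
        ∑ p, ∑ q, MM e E δ p q * (X p * X q) := by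
      rw [hsw X (fun q => X q.swap), e2]
    have e4 : ∀ p q : J × J,
        MM e E δ p q * (A p.1 p.2 * A q.1 q.2) = 1 / 4 * (MM e E δ p q * (X p * X q)) +
        1 / 4 * (MM e E δ p q * (X p.swap * X q)) + 1 / 4 * (MM e E δ p q * (X p * X q.swap)) +
        1 / 4 * (MM e E δ p q * (X p.swap * X q.swap)) := by
      intro p q
      simp only [hA, Matrix.of_apply, Prod.swap]
      ring
    simp only [e4, Finset.sum_add_distrib, ← Finset.mul_sum, e1, e2, e3]
    ring
  rw [h1]
  simp only [spectral_entries A hAh]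
  set v := hAh.eigenvectorBasis with hv
  set c := hAh.eigenvalues with hc
  have h2 := MM_value e hE δ v c (fun a => v.map e.repr.symm a) (fun a => by
    rw [OrthonormalBasis.map_apply, ← e.sum_repr_symm])
  rw [h2]
  have h3 := h (v.map e.repr.symm) c
  linarith

/-- **The symmetric forms** of a tensor which is bounded in all frames -/
theorem frame_forms (e : OrthonormalBasis J ℝ V) (hE : AlgCurv E) {δ : ℝ} (h : FrameBound J δ E) :
    ∃ (p : ℕ) (k : Fin p → V → V → ℝ), (∀ a, SymForm (k a)) ∧
      (∀ x y z w, E x y z w = -∑ a, knSq (k a) x y z w) ∧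
      ∀ x, ∑ a, k a x x ^ 2 = δ * (‖x‖ ^ 2) ^ 2 := by
  obtain ⟨B, hB⟩ := sq_real (Matrix.of (MM e E δ)) (fun p q => MM_symm e hE δ p q)
    (fun X => MM_psd e hE h X)
  have hB' : ∀ p q, MM e E δ p q = ∑ a, B a p * B a q := fun p q => hB p q
  have hBs : ∀ a p, B a p.swap = B a p := by
    intro a p
    have h1 : ∑ a, (B a p.swap - B a p) ^ 2 = 0 := by
      have e1 : ∑ a, (B a p.swap - B a p) ^ 2 = (∑ a, B a p.swap * B a p.swap) -
          2 * (∑ a, B a p.swap * B a p) + ∑ a, B a p * B a p := by
        rw [Finset.mul_sum, ← Finset.sum_sub_distrib, ← Finset.sum_add_distrib]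
        exact Finset.sum_congr rfl fun a _ => by ring
      rw [e1, ← hB', ← hB', ← hB', MM_swap e hE, MM_swap e hE, MM_symm e hE δ p p.swap,
        MM_swap e hE]
      ring
    have h2 := (Finset.sum_eq_zero_iff_of_nonneg (fun a _ => sq_nonneg _)).1 h1 a
      (Finset.mem_univ a)
    have h3 := pow_eq_zero_iff (two_ne_zero) |>.1 h2
    linarith
  let eqv := (Fintype.equivFin (J × J)).symm
  set k : Fin (Fintype.card (J × J)) → V → V → ℝ := fun a x y =>
    ∑ i, ∑ j, inner ℝ (e i) x * inner ℝ (e j) y * B (eqv a) (i, j) with hk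
  have hks : ∀ a, SymForm (k a) := by
    intro a
    refine ⟨fun x x' y => ?_, fun t x y => ?_, fun x y => ?_⟩
    · simp only [hk, inner_add_right, add_mul, Finset.sum_add_distrib]
    · simp only [hk, inner_smul_right, Finset.mul_sum]
      exact Finset.sum_congr rfl fun i _ => Finset.sum_congr rfl fun j _ => by ring
    · simp only [hk]
      rw [Finset.sum_comm]
      refine Finset.sum_congr rfl fun i _ => Finset.sum_congr rfl fun j _ => ?_
      have := hBs (eqv a) (i, j)
      simp only [Prod.swap_prod_mk] at this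
      rw [this]
      ring
  -- the products in terms of the form
  have hprod : ∀ x y z w, ∑ a, k a x y * k a z w =
      -(1 / 3) * (E x z y w + E x w y z) + δ / 3 * (inner ℝ x y * inner ℝ z w +
        inner ℝ x z * inner ℝ y w + inner ℝ x w * inner ℝ y z) := by
    intro x y z w
    have hx : ∀ u : V, u = ∑ i, inner ℝ (e i) u • e i := fun u => (e.sum_repr' u).symm
    have hin : ∀ u u' : V, inner ℝ u u' = ∑ i, inner ℝ (e i) u * inner ℝ (e i) u' := by
      intro u u'
      rw [← e.sum_inner_mul_inner u u']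
      exact Finset.sum_congr rfl fun i _ => by rw [real_inner_comm u (e i)]
    have e1 : ∑ a, k a x y * k a z w = ∑ i, ∑ j, ∑ i', ∑ j',
        inner ℝ (e i) x * inner ℝ (e j) y * inner ℝ (e i') z * inner ℝ (e j') w *
          MM e E δ (i, j) (i', j') := by
      have e2 : ∀ a, k a x y * k a z w = ∑ i, ∑ j, ∑ i', ∑ j',
          inner ℝ (e i) x * inner ℝ (e j) y * inner ℝ (e i') z * inner ℝ (e j') w *
          (B (eqv a) (i, j) * B (eqv a) (i', j')) := by
        intro a
        simp only [hk]
        rw [Finset.sum_mul]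
        refine Finset.sum_congr rfl fun i _ => ?_
        rw [Finset.sum_mul]
        refine Finset.sum_congr rfl fun j _ => ?_
        rw [Finset.mul_sum]
        refine Finset.sum_congr rfl fun i' _ => ?_
        rw [Finset.mul_sum]
        refine Finset.sum_congr rfl fun j' _ => ?_
        ring
      simp only [e2, hB', Finset.mul_sum]
      rw [Finset.sum_comm]
      refine Finset.sum_congr rfl fun i _ => ?_
      rw [Finset.sum_comm]
      refine Finset.sum_congr rfl fun j _ => ?_
      rw [Finset.sum_comm]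
      refine Finset.sum_congr rfl fun i' _ => ?_
      rw [Finset.sum_comm]
      refine Finset.sum_congr rfl fun j' _ => ?_
      exact Equiv.sum_comp eqv (fun a => inner ℝ (e i) x * inner ℝ (e j) y * inner ℝ (e i') z *
        inner ℝ (e j') w * (B a (i, j) * B a (i', j')))
    rw [e1]
    have q1 : E x z y w = ∑ i, ∑ j, ∑ i', ∑ j',
        inner ℝ (e i) x * inner ℝ (e j) y * inner ℝ (e i') z * inner ℝ (e j') w *
          E (e i) (e i') (e j) (e j') := by
      conv_lhs => rw [hx x, hx y, hx z, hx w, R_ev4 hE, ev4_eq]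
      refine Finset.sum_congr rfl fun i _ => ?_
      rw [Finset.sum_comm]
      refine Finset.sum_congr rfl fun j _ => Finset.sum_congr rfl fun i' _ =>
        Finset.sum_congr rfl fun j' _ => ?_
      ring
    have q2 : E x w y z = ∑ i, ∑ j, ∑ i', ∑ j',
        inner ℝ (e i) x * inner ℝ (e j) y * inner ℝ (e i') z * inner ℝ (e j') w *
          E (e i) (e j') (e j) (e i') := by
      conv_lhs => rw [hx x, hx y, hx z, hx w, R_ev4 hE, ev4_eq]
      refine Finset.sum_congr rfl fun i _ => ?_
      rw [Finset.sum_comm]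
      refine Finset.sum_congr rfl fun j _ => ?_
      rw [Finset.sum_comm]
      refine Finset.sum_congr rfl fun i' _ =>
        Finset.sum_congr rfl fun j' _ => ?_
      ring
    have q3 : inner ℝ x y * inner ℝ z w = ∑ i, ∑ j, ∑ i', ∑ j',
        inner ℝ (e i) x * inner ℝ (e j) y * inner ℝ (e i') z * inner ℝ (e j') w *
          ((if i = j then (1 : ℝ) else 0) * (if i' = j' then 1 else 0)) := by
      rw [hin x y, hin z w, Finset.sum_mul_sum]
      refine Finset.sum_congr rfl fun i _ => ?_
      symm
      rw [Finset.sum_eq_single i]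
      · refine Finset.sum_congr rfl fun i' _ => ?_
        rw [Finset.sum_eq_single i']
        · simp only [if_true]
          ring
        · intro j' _ hj
          rw [if_neg (Ne.symm hj)]
          ring
        · intro h
          exact absurd (Finset.mem_univ _) h
      · intro j _ hj
        refine Finset.sum_eq_zero fun i' _ => Finset.sum_eq_zero fun j' _ => ?_
        rw [if_neg (Ne.symm hj)]
        ring
      · intro h
        exact absurd (Finset.mem_univ _) h
    have q4 : inner ℝ x z * inner ℝ y w = ∑ i, ∑ j, ∑ i', ∑ j',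
        inner ℝ (e i) x * inner ℝ (e j) y * inner ℝ (e i') z * inner ℝ (e j') w *
          ((if i = i' then (1 : ℝ) else 0) * (if j = j' then 1 else 0)) := by
      rw [hin x z, hin y w, Finset.sum_mul_sum]
      refine Finset.sum_congr rfl fun i _ => Finset.sum_congr rfl fun j _ => ?_
      rw [Finset.sum_eq_single i]
      · rw [Finset.sum_eq_single j]
        · simp only [if_true]
          ring
        · intro j' _ hj
          rw [if_neg (Ne.symm hj)]
          ring
        · intro h
          exact absurd (Finset.mem_univ _) h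
      · intro i' _ hi
        refine Finset.sum_eq_zero fun j' _ => ?_
        rw [if_neg (Ne.symm hi)]
        ring
      · intro h
        exact absurd (Finset.mem_univ _) h
    have q5 : inner ℝ x w * inner ℝ y z = ∑ i, ∑ j, ∑ i', ∑ j',
        inner ℝ (e i) x * inner ℝ (e j) y * inner ℝ (e i') z * inner ℝ (e j') w *
          ((if i = j' then (1 : ℝ) else 0) * (if j = i' then 1 else 0)) := by
      rw [hin x w, hin y z, Finset.sum_mul_sum]
      refine Finset.sum_congr rfl fun i _ => Finset.sum_congr rfl fun j _ => ?_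
      rw [Finset.sum_eq_single j]
      · rw [Finset.sum_eq_single i]
        · simp only [if_true]
          ring
        · intro j' _ hj
          rw [if_neg (Ne.symm hj)]
          ring
        · intro h
          exact absurd (Finset.mem_univ _) h
      · intro i' _ hi
        refine Finset.sum_eq_zero fun j' _ => ?_
        rw [if_neg (Ne.symm hi)]
        ring
      · intro h
        exact absurd (Finset.mem_univ _) h
    rw [q1, q2, q3, q4, q5, ← Finset.sum_add_distrib, ← Finset.sum_add_distrib,
      ← Finset.sum_add_distrib, Finset.mul_sum, Finset.mul_sum, ← Finset.sum_add_distrib]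
    refine Finset.sum_congr rfl fun i _ => ?_
    rw [← Finset.sum_add_distrib, ← Finset.sum_add_distrib,
      ← Finset.sum_add_distrib, Finset.mul_sum, Finset.mul_sum, ← Finset.sum_add_distrib]
    refine Finset.sum_congr rfl fun j _ => ?_
    rw [← Finset.sum_add_distrib, ← Finset.sum_add_distrib,
      ← Finset.sum_add_distrib, Finset.mul_sum, Finset.mul_sum, ← Finset.sum_add_distrib]
    refine Finset.sum_congr rfl fun i' _ => ?_
    rw [← Finset.sum_add_distrib, ← Finset.sum_add_distrib,
      ← Finset.sum_add_distrib, Finset.mul_sum, Finset.mul_sum, ← Finset.sum_add_distrib]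
    refine Finset.sum_congr rfl fun j' _ => ?_
    simp only [MM]
    ring
  refine ⟨_, k, hks, fun x y z w => ?_, fun x => ?_⟩
  · have h1 : ∑ a, knSq (k a) x y z w = ∑ a, k a x z * k a y w - ∑ a, k a x w * k a y z := by
      simp only [knSq, Finset.sum_sub_distrib]
    have hb := hE.bianchi y z w x
    have b1 : E y z w x = -E x w y z := by
      rw [← hE.pair, hE.anti]
    have b2 : E z w y x = -E x y z w := by
      rw [← hE.pair, hE.anti]
    have b3 : E w y z x = -E x z w y := by
      rw [← hE.pair, hE.anti]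
    rw [b1, b2, b3] at hb
    have b4 : E x z w y = -E x z y w := a34' hE _ _ _ _
    have b5 : E x w z y = -E x w y z := a34' hE _ _ _ _
    have b6 : E x y w z = -E x y z w := a34' hE _ _ _ _
    rw [h1, hprod, hprod, b5, b6, b4]
    rw [b4] at hb
    rw [real_inner_comm w z, real_inner_comm y z, real_inner_comm y w]
    linear_combination (-1 / 3) * hb
  · have h1 : ∑ a, k a x x ^ 2 = ∑ a, k a x x * k a x x :=
      Finset.sum_congr rfl fun a _ => sq _
    rw [h1, hprod, hE.self12, real_inner_self_eq_norm_sq]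
    ring

end frames

end Pool.Agent.N509.HN
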