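import Pool.Agent.N509.HN.Wa

set_option autoImplicit false

/-!
# The double alternating form with an additional symmetric form
-/

namespace Pool.Agent.N509.HN

open Finset
open Pool.Agent.Y489.SM
open Pool.Agent.W666.GB (sn sn_mul sn_inv sn_mul_self MD Yf)

variable {K : Type} [Fintype K] [DecidableEq K] {m : ℕ}

/-- **The double alternating form** of `∑ w_k B_k ⊗ B_k` from the determinants of
`∑ ζ_k ω_k B_k`, `ω_k² = w_k`, with a symmetric form `G` as an error term. -/
theorem Yf_bound' (ω : Option K → ℂ) (w : Option K → ℝ) (hw : ∀ k, ω k ^ 2 = (w k : ℂ))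
    (B : Option K → Fin m × Bool → Fin m × Bool → ℝ) (s h : ℝ)
    (G : (Fin m × Bool → Option K) → ℝ) (hG : Sy G)
    (H : ∀ ζ : Option K → ℝ, h * (ζ none ^ 2) ^ m ≤
      s * (Matrix.det (Matrix.of fun i j => ∑ k, (ζ k : ℂ) * ω k * (B k i j : ℂ))).re +
        ∑ β : Fin m × Bool → Option K, (∏ j, ζ (β j)) * G β) :
    (2 * m).factorial * h ≤ s * Yf (fun a b c d => ∑ k, w k * (B k a b * B k c d)) +
      (2 * m).factorial * ∑ α : Fin m → Option K, G (fun x => α x.1) := by
  classical
  set F : (Fin m × Bool → Option K) → ℝ := fun β => s * FF ω B β -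
    (2 * m).factorial * h * (if ∀ j, β j = none then 1 else 0) + (2 * m).factorial * G β with hF
  have hcard : Fintype.card (Fin m × Bool) = 2 * m := by
    rw [Fintype.card_prod, Fintype.card_fin, Fintype.card_bool, mul_comm]
  have hsy : Sy F := by
    intro π β
    simp only [hF]
    rw [FF_sy ω B π β, hG π β]
    have : (∀ j, β (π j) = none) ↔ ∀ j, β j = none :=
      ⟨fun h j => by simpa using h (π.symm j), fun h j => h (π j)⟩
    simp only [this]
  have hpos : ∀ ζ : Option K → ℝ, 0 ≤ ∑ β : Fin m × Bool → Option K, (∏ j, ζ (β j)) * F β := by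
    intro ζ
    have h1 : ∑ β : Fin m × Bool → Option K, (∏ j, ζ (β j)) * F β =
        s * ∑ β : Fin m × Bool → Option K, (∏ j, ζ (β j)) * FF ω B β -
        (2 * m).factorial * h * ∑ β : Fin m × Bool → Option K,
          (∏ j, ζ (β j)) * (if ∀ j, β j = none then 1 else 0) +
        (2 * m).factorial * ∑ β : Fin m × Bool → Option K, (∏ j, ζ (β j)) * G β := by
      rw [Finset.mul_sum, Finset.mul_sum, Finset.mul_sum, ← Finset.sum_sub_distrib,
        ← Finset.sum_add_distrib]
      refine Finset.sum_congr rfl fun β _ => ?_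
      simp only [hF]
      ring
    have h2 : ∑ β : Fin m × Bool → Option K,
          (∏ j, ζ (β j)) * (if ∀ j, β j = none then (1 : ℝ) else 0) = (ζ none ^ 2) ^ m := by
      rw [Finset.sum_eq_single (fun _ => none)]
      · simp only [Finset.prod_const, Finset.card_univ, hcard, implies_true, if_true, mul_one]
        rw [pow_mul]
      · intro β _ hβ
        rw [if_neg, mul_zero]
        intro hn
        exact hβ (funext hn)
      · intro hn
        exact absurd (Finset.mem_univ _) hn
    rw [h1, h2, FF_poly, hcard]
    have h3 := H ζ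
    have h4 : (0 : ℝ) ≤ (2 * m).factorial := Nat.cast_nonneg _
    nlinarith [mul_le_mul_of_nonneg_left h3 h4]
  have h5 := pairs_nonneg m F hsy hpos
  have h6 : ∑ α : Fin m → Option K, F (fun x => α x.1) =
      s * Yf (fun a b c d => ∑ k, w k * (B k a b * B k c d)) - (2 * m).factorial * h +
        (2 * m).factorial * ∑ α : Fin m → Option K, G (fun x => α x.1) := by
    rw [Yf_sum, Finset.mul_sum, Finset.mul_sum]
    have h7 : ∑ α : Fin m → Option K, (if ∀ j : Fin m × Bool, α j.1 = none then (1 : ℝ) else 0) =
        1 := by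
      rw [Finset.sum_eq_single (fun _ => none)]
      · simp
      · intro β _ hβ
        rw [if_neg]
        intro hn
        exact hβ (funext fun b => hn (b, true))
      · intro hn
        exact absurd (Finset.mem_univ _) hn
    have h8 : ∀ α : Fin m → Option K, F (fun x => α x.1) =
        s * ((∏ b, w (α b)) * MD (fun j : Fin m × Bool => B (α j.1))) -
        (2 * m).factorial * h *
          (if ∀ j : Fin m × Bool, α j.1 = none then (1 : ℝ) else 0) +
        (2 * m).factorial * G (fun x => α x.1) := by
      intro α
      simp only [hF]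
      congr 3
      unfold FF
      congr 1
      rw [Fintype.prod_prod_type]
      have h9 : ∀ b : Fin m, ∏ _y : Bool, ω (α b) = (w (α b) : ℂ) := by
        intro b
        rw [Fintype.prod_bool, ← hw]
        ring
      simp only [h9, ← Complex.ofReal_prod, Complex.ofReal_re]
    simp only [h8, Finset.sum_add_distrib, Finset.sum_sub_distrib, ← Finset.mul_sum, h7, mul_one]
  rw [h6] at h5
  linarith

end Pool.Agent.N509.HN
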