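import Pool.Agent.N509.HN.Co
import Pool.Agent.Y519.HB.Last
import Pool.Agent.R770.NS.Main

set_option autoImplicit false

/-!
# From matrices to curvature tensors
-/

namespace Pool.Agent.N509.HN

open Finset Pool.Agent.W666.GB Pool.Agent.W669.HD
open Pool.Agent.R770.NS (SymForm knSq)

section mat

variable {J : Type} [Fintype J] [DecidableEq J]

/-- a basis which is orthonormal for the form `H` -/
theorem exists_U (H : J → J → ℝ) (hs : ∀ i j, H i j = H j i)
    (hp : ∀ x : J → ℝ, x ≠ 0 → 0 < ∑ i, ∑ j, x i * x j * H i j) :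
    ∃ U : Matrix J J ℝ, (∀ i j, cj U H i j = if i = j then 1 else 0) ∧
      U.det ^ 2 * (Matrix.of H).det = 1 := by
  have hnn : ∀ x : J → ℝ, 0 ≤ ∑ p, ∑ q, (Matrix.of H) p q * (x p * x q) := by
    intro x
    by_cases hx : x = 0
    · subst hx
      simp
    · refine (hp x hx).le.trans (le_of_eq ?_)
      exact Finset.sum_congr rfl fun i _ => Finset.sum_congr rfl fun j _ => by
        rw [Matrix.of_apply]; ring
  obtain ⟨B, hB⟩ := sq_real (Matrix.of H) (fun p q => hs p q) hnn
  have hH : Matrix.of H = B.transpose * B := by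
    ext p q
    rw [hB, Matrix.mul_apply]
    rfl
  have hdet : B.det ≠ 0 := by
    intro h0
    obtain ⟨v, hv, hBv⟩ := Matrix.exists_mulVec_eq_zero_iff.2 h0
    have h1 := hp v hv
    have h2 : ∑ i, ∑ j, v i * v j * H i j = ∑ a, (∑ i, B a i * v i) ^ 2 := by
      have h3 : ∀ i j, H i j = ∑ a, B a i * B a j := fun i j => hB i j
      have h5 : ∀ a, (∑ i, B a i * v i) ^ 2 = ∑ i, ∑ j, v i * v j * (B a i * B a j) := by
        intro a
        rw [sq, Finset.sum_mul_sum]
        exact Finset.sum_congr rfl fun i _ => Finset.sum_congr rfl fun j _ => by ring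
      simp only [h3, h5, Finset.mul_sum]
      rw [Finset.sum_congr rfl fun i _ => Finset.sum_comm, Finset.sum_comm]
    have h4 : ∀ a, ∑ i, B a i * v i = 0 := fun a => congrFun hBv a
    rw [h2] at h1
    simp only [h4] at h1
    norm_num at h1
  have hBU : B * B⁻¹ = 1 := Matrix.mul_nonsing_inv _ (Ne.isUnit hdet)
  refine ⟨B⁻¹, fun i j => ?_, ?_⟩
  · have h1 : cj B⁻¹ H i j = ∑ d, (B * B⁻¹) d i * (B * B⁻¹) d j := by
      have h3 : ∀ i j, H i j = ∑ a, B a i * B a j := fun i j => hB i j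
      have h5 : ∀ d, (B * B⁻¹) d i * (B * B⁻¹) d j =
          ∑ a, ∑ c, B⁻¹ a i * B⁻¹ c j * (B d a * B d c) := by
        intro d
        rw [Matrix.mul_apply, Matrix.mul_apply, Finset.sum_mul_sum]
        exact Finset.sum_congr rfl fun i _ => Finset.sum_congr rfl fun j _ => by ring
      simp only [cj, h3, h5, Finset.mul_sum]
      rw [Finset.sum_congr rfl fun a _ => Finset.sum_comm, Finset.sum_comm]
    rw [h1, hBU]
    simp [Matrix.one_apply, eq_comm (a := j) (b := i)]
  · have h1 : B.det * (B⁻¹).det = 1 := by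
      rw [← Matrix.det_mul, hBU, Matrix.det_one]
    rw [hH, Matrix.det_mul, Matrix.det_transpose]
    calc (B⁻¹).det ^ 2 * (B.det * B.det) = (B.det * (B⁻¹).det) ^ 2 := by ring
      _ = 1 := by rw [h1, one_pow]

/-- smallness relative to `H` -/
def SmallR {I : Type} [Fintype I] (H : J → J → ℝ) (T : I → J → J → ℝ) (η : ℝ) : Prop :=
  ∀ x y : J → ℝ, ∑ k, (∑ a, ∑ c, x a * y c * T k a c) ^ 2 ≤
    η * (∑ a, ∑ c, x a * x c * H a c) * (∑ a, ∑ c, y a * y c * H a c)

end mat

section mat2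

variable {m : ℕ}

theorem small_of_rel {I : Type} [Fintype I] {H : Fin m × Bool → Fin m × Bool → ℝ}
    {T : I → Fin m × Bool → Fin m × Bool → ℝ} {η : ℝ} (h : SmallR H T η)
    (U : Matrix (Fin m × Bool) (Fin m × Bool) ℝ)
    (hU : ∀ i j, cj U H i j = if i = j then 1 else 0) : Small (cjf U T) η := by
  intro x y
  have e1 : ∀ z : Fin m × Bool → ℝ, ∑ a, ∑ c, (∑ i, U a i * z i) * (∑ j, U c j * z j) * H a c =
      ∑ a, z a ^ 2 := by
    intro z
    rw [← cj_form U H z z]
    simp only [hU, mul_ite, mul_one, mul_zero, Finset.sum_ite_eq, Finset.mem_univ, if_true, sq]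
  have e2 := h (fun a => ∑ i, U a i * x i) (fun a => ∑ i, U a i * y i)
  rw [e1, e1] at e2
  refine le_trans (le_of_eq ?_) e2
  refine Finset.sum_congr rfl fun k _ => ?_
  rw [cjf, cj_form]

theorem mat_gen (hm : 0 < m) {A A' : Type} [Fintype A] [DecidableEq A] [Fintype A']
    [DecidableEq A'] (H : Fin m × Bool → Fin m × Bool → ℝ)
    (h : A → Fin m × Bool → Fin m × Bool → ℝ) (b : A' → Fin m × Bool → Fin m × Bool → ℝ)
    (hs : ∀ i j, H i j = H j i)
    (hp : ∀ x : Fin m × Bool → ℝ, x ≠ 0 → 0 < ∑ i, ∑ j, x i * x j * H i j)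
    (hsym : ∀ a i j, h a i j = h a j i)
    (hskew : ∀ a i j, b a i j = -b a j i) {t : ℝ} (ht0 : 0 < t) (ht1 : t < 1)
    (hh : SmallR H h (t ^ 2 / 144)) (hb : SmallR H b ((1 - t) ^ 2 / 144)) :
    (2 * m).factorial * (13 / 18 * (4 / 9) ^ m * (Matrix.of H).det) ≤ Yf (CC H h b) := by
  obtain ⟨U, hU, hd⟩ := exists_U H hs hp
  have h1 := core_gen H h b hm U hU hsym hskew ht0 ht1 (small_of_rel hh U hU)
    (small_of_rel hb U hU)
  have h2 : 0 < (Matrix.of H).det := by
    by_contra hn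
    push Not at hn
    have := mul_nonpos_of_nonneg_of_nonpos (sq_nonneg U.det) hn
    linarith
  have h3 := mul_le_mul_of_nonneg_right h1 h2.le
  have h4 : U.det ^ 2 * Yf (CC H h b) * (Matrix.of H).det = Yf (CC H h b) := by
    calc _ = (U.det ^ 2 * (Matrix.of H).det) * Yf (CC H h b) := by ring
      _ = _ := by rw [hd, one_mul]
  rw [h4] at h3
  refine le_trans (le_of_eq ?_) h3
  ring

theorem mat_skew (hm : 0 < m) {A' : Type} [Fintype A']
    [DecidableEq A'] (H : Fin m × Bool → Fin m × Bool → ℝ)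
    (b : A' → Fin m × Bool → Fin m × Bool → ℝ)
    (hs : ∀ i j, H i j = H j i)
    (hp : ∀ x : Fin m × Bool → ℝ, x ≠ 0 → 0 < ∑ i, ∑ j, x i * x j * H i j)
    (hskew : ∀ a i j, b a i j = -b a j i) (hb : SmallR H b (1 / 32)) :
    (2 * m).factorial * (5 / 8 * (1 / 2) ^ m * (Matrix.of H).det) ≤ Yf (CC H h0 b) := by
  obtain ⟨U, hU, hd⟩ := exists_U H hs hp
  have h1 := core_skew H b hm U hU hskew (small_of_rel hb U hU)
  have h2 : 0 < (Matrix.of H).det := by
    by_contra hn
    push Not at hn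
    have := mul_nonpos_of_nonneg_of_nonpos (sq_nonneg U.det) hn
    linarith
  have h3 := mul_le_mul_of_nonneg_right h1 h2.le
  have h4 : U.det ^ 2 * Yf (CC H h0 b) * (Matrix.of H).det = Yf (CC H h0 b) := by
    calc _ = (U.det ^ 2 * (Matrix.of H).det) * Yf (CC H h0 b) := by ring
      _ = _ := by rw [hd, one_mul]
  rw [h4] at h3
  refine le_trans (le_of_eq ?_) h3
  ring

end mat2

section gb

variable {V : Type} [NormedAddCommGroup V] [InnerProductSpace ℝ V] {m : ℕ}

/-- the integrand from a lift of the components -/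
theorem gbc_of_lift (e : OrthonormalBasis (Fin m × Bool) ℝ V) (R : V → V → V → V → ℝ)
    (C : Fin m × Bool → Fin m × Bool → Fin m × Bool → Fin m × Bool → ℝ)
    (h : ∀ i j k l, -R (e i) (e j) (e k) (e l) = C i k j l - C i l j k) :
    (-1) ^ m * gbc e R = 1 / ((4 * Real.pi) ^ m * m.factorial) * Yf C := by
  have h1 := lift_sum (B := Fin m) C (fun i j k l => -R (e i) (e j) (e k) (e l)) h
  rw [Fintype.card_fin] at h1
  have h2 : ∀ σ τ : Equiv.Perm (Fin m × Bool), ∏ b : Fin m,
      -R (e (σ (b, false))) (e (σ (b, true))) (e (τ (b, false))) (e (τ (b, true))) =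
      (-1) ^ m * ∏ b : Fin m,
        R (e (σ (b, false))) (e (σ (b, true))) (e (τ (b, false))) (e (τ (b, true))) := by
    intro σ τ
    rw [Finset.prod_neg, Finset.card_univ, Fintype.card_fin]
  have h3 : (-1) ^ m * gbc e R = 1 / ((8 * Real.pi) ^ m * m.factorial) *
      (2 ^ m * Yf C) := by
    rw [← h1, gbc]
    simp only [h2, sn, Finset.mul_sum]
    refine Finset.sum_congr rfl fun σ _ => Finset.sum_congr rfl fun τ _ => ?_
    ring
  rw [h3]
  have h8 : (8 * Real.pi) ^ m = 2 ^ m * (4 * Real.pi) ^ m := by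
    rw [← mul_pow]
    congr 1
    ring
  have hπ := Real.pi_pos
  rw [h8]
  field_simp

theorem roundGB_one : roundGB m 1 = (2 * m).factorial / ((4 * Real.pi) ^ m * m.factorial) := by
  unfold roundGB
  rw [one_pow, mul_one]

end gb

end Pool.Agent.N509.HN
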