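import Pool.Agent.Y489.SM.Md

set_option autoImplicit false

/-!
# Gaussian means in two sets of variables
-/

namespace Pool.Agent.N509.HN

open Finset
open Pool.Agent.Y489.SM

section two

variable {K L J : Type} [Fintype K] [DecidableEq K] [Fintype L] [DecidableEq L]
  [Fintype J] [DecidableEq J]

/-- A form in two sets of variables which is nonnegative everywhere has nonnegative Gaussian
mean. -/
theorem wick_nonneg2 (F : (J → K) → (J → L) → ℝ)
    (h : ∀ (x : K → ℝ) (y : L → ℝ),
      0 ≤ ∑ p : J → K, ∑ q : J → L, (∏ j, x (p j)) * (∏ j, y (q j)) * F p q) :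
    0 ≤ ∑ p : J → K, ∑ q : J → L, wick p * wick q * F p q := by
  have h1 : ∀ y : L → ℝ, 0 ≤ ∑ p : J → K, wick p * ∑ q : J → L, (∏ j, y (q j)) * F p q := by
    intro y
    refine wick_nonneg _ fun x => ?_
    refine (h x y).trans (le_of_eq ?_)
    refine Finset.sum_congr rfl fun p _ => ?_
    rw [Finset.mul_sum]
    exact Finset.sum_congr rfl fun q _ => by ring
  have h2 : 0 ≤ ∑ q : J → L, wick q * ∑ p : J → K, wick p * F p q := by
    refine wick_nonneg _ fun y => ?_
    refine (h1 y).trans (le_of_eq ?_)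
    simp only [Finset.mul_sum]
    rw [Finset.sum_comm]
    exact Finset.sum_congr rfl fun q _ => Finset.sum_congr rfl fun p _ => by ring
  refine h2.trans (le_of_eq ?_)
  simp only [Finset.mul_sum]
  rw [Finset.sum_comm]
  exact Finset.sum_congr rfl fun q _ => Finset.sum_congr rfl fun p _ => by ring

/-- the Gaussian mean of a product of bilinear forms -/
noncomputable def W2 (T : J → K → L → ℝ) : ℝ :=
  ∑ p : J → K, ∑ q : J → L, wick p * wick q * ∏ j, T j (p j) (q j)

omit [DecidableEq J] in
theorem sum_perm_fun {M : Type} [Fintype M] [DecidableEq M] [DecidableEq J]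
    (π : Equiv.Perm J) (f : (J → M) → ℝ) :
    ∑ p : J → M, f (fun j => p (π j)) = ∑ p : J → M, f p := by
  refine Fintype.sum_equiv (Equiv.arrowCongr π.symm (Equiv.refl M)) _ _ fun p => ?_
  congr 1

theorem W2_perm (T : J → K → L → ℝ) (π : Equiv.Perm J) : W2 (fun j => T (π j)) = W2 T := by
  unfold W2
  rw [← sum_perm_fun π]
  refine Finset.sum_congr rfl fun p _ => ?_
  rw [← sum_perm_fun π]
  refine Finset.sum_congr rfl fun q _ => ?_
  rw [wick_equiv π p, wick_equiv π q]
  congr 1
  exact Equiv.prod_comp π (fun j => T j (p j) (q j))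

theorem W2_expand {I : Type} [Fintype I] [DecidableEq I] (T : I → K → L → ℝ) (ζ : I → ℝ) :
    ∑ β : J → I, (∏ j, ζ (β j)) * W2 (fun j => T (β j)) =
      W2 (fun _ : J => fun a b => ∑ k, ζ k * T k a b) := by
  unfold W2
  simp only [Finset.mul_sum]
  rw [Finset.sum_comm]
  refine Finset.sum_congr rfl fun p _ => ?_
  rw [Finset.sum_comm]
  refine Finset.sum_congr rfl fun q _ => ?_
  rw [Fintype.prod_sum, Finset.mul_sum]
  refine Finset.sum_congr rfl fun β _ => ?_
  rw [Finset.prod_mul_distrib]
  ring

end two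

section pairs

variable {K : Type} [Fintype K] [DecidableEq K] {m : ℕ}

/-- the sum of the moments over the diagonal of the pairs -/
noncomputable def SP (K : Type) [Fintype K] [DecidableEq K] (m : ℕ) : ℝ :=
  ∑ α : Fin m → K, wick (fun x : Fin m × Bool => α x.1)

/-- product of the first odd numbers -/
noncomputable def df (m : ℕ) : ℝ := ∏ i ∈ range m, (2 * (i : ℝ) + 1)

theorem df_pos (m : ℕ) : 0 < df m := Finset.prod_pos fun i _ => by positivity

theorem mu_even (m : ℕ) : mu (2 * m) = df m * mu 0 := by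
  induction m with
  | zero => simp [df]
  | succ m ih =>
    rw [show 2 * (m + 1) = 2 * m + 2 by ring, mu_add_two, ih]
    unfold df
    rw [Finset.prod_range_succ]
    push_cast
    ring

theorem cnt_total {J : Type} [Fintype J] (β : J → K) : ∑ k, cnt β k = Fintype.card J := by
  unfold cnt
  rw [← Finset.card_univ]
  exact (Finset.card_eq_sum_card_fiberwise fun _ _ => Finset.mem_univ _).symm

/-- prepending a pair multiplies the moment by one plus the number of occurrences -/
theorem wick_oc2 {J : Type} [Fintype J] (a : K) (β : J → K) :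
    wick (oc a (oc a β)) = (cnt β a + 1) * wick β := by
  unfold wick
  rw [← Finset.mul_prod_erase univ _ (Finset.mem_univ a),
    ← Finset.mul_prod_erase univ (fun k => mu (cnt β k)) (Finset.mem_univ a)]
  have h2 : ∏ k ∈ univ.erase a, mu (cnt (oc a (oc a β)) k) = ∏ k ∈ univ.erase a, mu (cnt β k) := by
    refine Finset.prod_congr rfl fun k hk => ?_
    rw [cnt_oc, cnt_oc, if_neg (Finset.ne_of_mem_erase hk).symm, zero_add, zero_add]
  rw [h2, cnt_oc, cnt_oc, if_pos rfl, show 1 + (1 + cnt β a) = cnt β a + 2 by ring, mu_add_two]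
  ring

theorem SP_eq (m : ℕ) : SP K m = mu 0 ^ Fintype.card K *
    ∏ i ∈ range m, ((Fintype.card K : ℝ) + 2 * i) := by
  induction m with
  | zero =>
    unfold SP
    rw [Fintype.sum_unique]
    have h1 : wick (fun x : Fin 0 × Bool => (default : Fin 0 → K) x.1) =
        mu 0 ^ Fintype.card K := by
      unfold wick
      have : ∀ k : K, cnt (fun x : Fin 0 × Bool => (default : Fin 0 → K) x.1) k = 0 := by
        intro k
        unfold cnt
        rw [Finset.card_eq_zero, Finset.filter_eq_empty_iff]
        rintro ⟨i, _⟩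
        exact i.elim0
      simp only [this, Finset.prod_const, Finset.card_univ]
    rw [h1]
    simp
  | succ m ih =>
    have h2 : SP K (m + 1) = ∑ α : Fin m → K, ∑ a : K,
        wick (oc a (oc a (fun x : Fin m × Bool => α x.1))) := by
      unfold SP
      rw [← Fintype.sum_prod_type_right (fun q : K × (Fin m → K) =>
        wick (oc q.1 (oc q.1 (fun x : Fin m × Bool => q.2 x.1))))]
      symm
      refine Fintype.sum_equiv (Fin.consEquiv fun _ => K) _ _ fun q => ?_
      rw [← wick_equiv (eS m)]
      congr 1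
      funext o
      rcases o with _ | _ | x <;> rfl
    rw [h2]
    have h3 : ∀ α : Fin m → K, ∑ a : K, wick (oc a (oc a (fun x : Fin m × Bool => α x.1))) =
        ((Fintype.card K : ℝ) + 2 * m) * wick (fun x : Fin m × Bool => α x.1) := by
      intro α
      simp only [wick_oc2]
      rw [← Finset.sum_mul, Finset.sum_add_distrib, ← Nat.cast_sum, cnt_total]
      simp only [Fintype.card_prod, Fintype.card_fin, Fintype.card_bool, Finset.sum_const,
        Finset.card_univ, nsmul_eq_mul, mul_one]
      push_cast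
      ring
    simp only [h3, ← Finset.mul_sum]
    have h4 : ∑ α : Fin m → K, wick (fun x : Fin m × Bool => α x.1) = SP K m := rfl
    rw [h4, ih, Finset.prod_range_succ]
    ring

theorem SP_nonneg (m : ℕ) : 0 ≤ SP K m := by
  rw [SP_eq]
  have := mu_zero_pos
  positivity

/-- the constant in the formula for the moments of linear forms -/
noncomputable def cc (K : Type) [Fintype K] (m : ℕ) : ℝ := mu 0 ^ Fintype.card K * df m

omit [DecidableEq K] in
theorem cc_pos (m : ℕ) : 0 < cc K m := mul_pos (pow_pos mu_zero_pos _) (df_pos m)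

theorem LW_pairs' [Nonempty K] (m : ℕ) (F : (Fin m × Bool → K) → ℝ) (hF : Sy F) :
    LW F = cc K m * ∑ α : Fin m → K, F (fun x => α x.1) := by
  obtain ⟨C, hC, hL⟩ := LW_pairs (K := K) m
  have h1 : C = cc K m := by
    obtain ⟨k₀⟩ := (inferInstance : Nonempty K)
    set F₀ : (Fin m × Bool → K) → ℝ := fun β => if ∀ j, β j = k₀ then 1 else 0 with hF₀
    have hs : Sy F₀ := by
      intro π β
      have : (∀ j, β (π j) = k₀) ↔ ∀ j, β j = k₀ :=
        ⟨fun h j => by simpa using h (π.symm j), fun h j => h (π j)⟩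
      simp only [hF₀, this]
    have h2 := hL F₀ hs
    have h3 : LW F₀ = cc K m := by
      unfold LW
      rw [Finset.sum_eq_single (fun _ => k₀)]
      · simp only [hF₀, implies_true, if_true, mul_one]
        unfold wick
        rw [← Finset.mul_prod_erase univ _ (Finset.mem_univ k₀)]
        have h4 : cnt (fun _ : Fin m × Bool => k₀) k₀ = 2 * m := by
          unfold cnt
          rw [Finset.filter_true_of_mem fun _ _ => rfl, Finset.card_univ, Fintype.card_prod,
            Fintype.card_fin, Fintype.card_bool, mul_comm]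
        have h5 : ∏ k ∈ univ.erase k₀, mu (cnt (fun _ : Fin m × Bool => k₀) k) =
            mu 0 ^ (Fintype.card K - 1) := by
          rw [← Finset.card_univ, ← Finset.card_erase_of_mem (Finset.mem_univ k₀),
            ← Finset.prod_const]
          refine Finset.prod_congr rfl fun k hk => ?_
          congr 1
          unfold cnt
          rw [Finset.card_eq_zero, Finset.filter_eq_empty_iff]
          exact fun _ _ h => (Finset.ne_of_mem_erase hk) h.symm
        have hc : Fintype.card K = (Fintype.card K - 1) + 1 :=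
          (Nat.sub_add_cancel Fintype.card_pos).symm
        rw [h4, h5, mu_even]
        unfold cc
        conv_rhs => rw [hc, pow_succ]
        ring
      · intro β _ hβ
        have : ¬ ∀ j, β j = k₀ := fun h => hβ (funext h)
        simp only [hF₀, if_neg this, mul_zero]
      · intro hn
        exact absurd (Finset.mem_univ _) hn
    have h6 : ∑ α : Fin m → K, F₀ (fun x => α x.1) = 1 := by
      rw [Finset.sum_eq_single (fun _ => k₀)]
      · simp [hF₀]
      · intro β _ hβ
        simp only [hF₀]
        rw [if_neg]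
        intro hn
        exact hβ (funext fun b => hn (b, true))
      · intro hn
        exact absurd (Finset.mem_univ _) hn
    rw [h3, h6, mul_one] at h2
    exact h2.symm
  rw [← h1]
  exact hL F hF

omit [Fintype K] [DecidableEq K] in
theorem pair_prod (x : K → ℝ) (α : Fin m → K) :
    ∏ j : Fin m × Bool, x (α j.1) = ∏ b, x (α b) ^ 2 := by
  rw [Fintype.prod_prod_type]
  refine Finset.prod_congr rfl fun b _ => ?_
  rw [Fintype.prod_bool]
  ring

theorem pow_prod (a : ℝ) (m : ℕ) : a ^ m = ∏ _b : Fin m, a := by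
  rw [Finset.prod_const, Finset.card_univ, Fintype.card_fin]

/-- moments of linear forms -/
theorem moment_lin [Nonempty K] (a : K → ℝ) :
    ∑ p : Fin m × Bool → K, wick p * ∏ j, a (p j) = cc K m * (∑ k, a k ^ 2) ^ m := by
  have h1 := LW_pairs' m (fun p : Fin m × Bool → K => ∏ j, a (p j))
    (fun π β => Equiv.prod_comp π (fun j => a (β j)))
  unfold LW at h1
  rw [h1]
  congr 1
  rw [pow_prod, Fintype.prod_sum]
  exact Finset.sum_congr rfl fun α _ => pair_prod a α

/-- comparison of the two constants in dimension `2 m` -/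
theorem prod_ratio (m : ℕ) : ∏ i ∈ range (m + 1), (2 * ((m : ℝ) + 1) + 2 * i) =
    2 ^ (2 * m + 1) * df (m + 1) := by
  induction m with
  | zero => simp [df]
  | succ m ih =>
    have h1 : ∏ i ∈ range (m + 3), (2 * ((m : ℝ) + 1) + 2 * i) =
        (∏ i ∈ range (m + 2), (2 * (((m : ℕ) + 1 : ℝ) + 1) + 2 * i)) * (2 * ((m : ℝ) + 1)) := by
      rw [Finset.prod_range_succ']
      congr 1
      · refine Finset.prod_congr rfl fun i _ => ?_
        push_cast
        ring
      · push_cast
        ring
    have h2 : ∏ i ∈ range (m + 3), (2 * ((m : ℝ) + 1) + 2 * i) =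
        (2 ^ (2 * m + 1) * df (m + 1)) * (4 * ((m : ℝ) + 1)) * (2 * (2 * ((m : ℝ) + 1) + 1)) := by
      rw [Finset.prod_range_succ, Finset.prod_range_succ, ih]
      push_cast
      ring
    have h3 : (2 * ((m : ℝ) + 1)) ≠ 0 := by positivity
    have h4 : df (m + 2) = df (m + 1) * (2 * ((m : ℝ) + 1) + 1) := by
      unfold df
      rw [Finset.prod_range_succ _ (m + 1)]
      push_cast
      ring
    rw [h1] at h2
    push_cast
    apply mul_right_cancel₀ h3
    rw [h2, h4]
    ring

theorem SP_ratio (m : ℕ) : SP (Fin (m + 1) × Bool) (m + 1) =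
    2 ^ (2 * m + 1) * cc (Fin (m + 1) × Bool) (m + 1) := by
  rw [SP_eq]
  unfold cc
  have h1 := prod_ratio m
  have h2 : (Fintype.card (Fin (m + 1) × Bool) : ℝ) = 2 * ((m : ℝ) + 1) := by
    rw [Fintype.card_prod, Fintype.card_fin, Fintype.card_bool]
    push_cast
    ring
  rw [h2, h1]
  ring

end pairs

section bilinear

variable {K L : Type} [Fintype K] [DecidableEq K] [Fintype L] [DecidableEq L] {m : ℕ}

/-- **Lower bound**: the mean of the power of a bilinear form is at least that of the power of a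
linear form -/
theorem W2_lower [Nonempty K] [Nonempty L] (T : K → L → ℝ) (v : K → ℝ) :
    cc K m * cc L m * (∑ q, (∑ p, v p * T p q) ^ 2) ^ m ≤
      (∑ p, v p ^ 2) ^ m * W2 (fun _ : Fin m × Bool => T) := by
  set w : L → ℝ := fun q => ∑ p, v p * T p q with hw
  have key : ∀ y : L → ℝ, 0 ≤ ∑ q : Fin m × Bool → L, (∏ j, y (q j)) *
      ((∑ p, v p ^ 2) ^ m * (∑ p : Fin m × Bool → K, wick p * ∏ j, T (p j) (q j)) -
        cc K m * ∏ j, w (q j)) := by
    intro y
    have h1 : ∑ q : Fin m × Bool → L, (∏ j, y (q j)) *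
      ((∑ p, v p ^ 2) ^ m * (∑ p : Fin m × Bool → K, wick p * ∏ j, T (p j) (q j)) -
        cc K m * ∏ j, w (q j)) =
        (∑ p, v p ^ 2) ^ m * (∑ p : Fin m × Bool → K, wick p *
          ∏ j, ∑ q, y q * T (p j) q) - cc K m * ∏ _j : Fin m × Bool, ∑ q, y q * w q := by
      simp only [Fintype.prod_sum, Finset.mul_sum]
      rw [Finset.sum_comm (f := fun (p : Fin m × Bool → K) (q : Fin m × Bool → L) => _)]
      rw [← Finset.sum_sub_distrib]
      refine Finset.sum_congr rfl fun q _ => ?_
      rw [mul_sub, Finset.prod_mul_distrib, Finset.mul_sum]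
      congr 1
      · refine Finset.sum_congr rfl fun p _ => ?_
        rw [Finset.prod_mul_distrib]
        ring
      · ring
    rw [h1, moment_lin (fun p => ∑ q, y q * T p q)]
    have h2 : ∏ _j : Fin m × Bool, ∑ q, y q * w q = ((∑ q, y q * w q) ^ 2) ^ m := by
      rw [Finset.prod_const, Finset.card_univ, Fintype.card_prod, Fintype.card_fin,
        Fintype.card_bool, mul_comm, pow_mul]
    rw [h2]
    have h3 : ∑ q, y q * w q = ∑ p, v p * ∑ q, y q * T p q := by
      simp only [hw, Finset.mul_sum]
      rw [Finset.sum_comm]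
      exact Finset.sum_congr rfl fun p _ => Finset.sum_congr rfl fun q _ => by ring
    have h4 : (∑ q, y q * w q) ^ 2 ≤ (∑ p, v p ^ 2) * ∑ p, (∑ q, y q * T p q) ^ 2 := by
      rw [h3]
      exact Finset.sum_mul_sq_le_sq_mul_sq _ _ _
    have h5 := pow_le_pow_left₀ (sq_nonneg _) h4 m
    rw [mul_pow] at h5
    have h6 := mul_le_mul_of_nonneg_left h5 (cc_pos (K := K) m).le
    nlinarith
  have h7 := wick_nonneg _ key
  have h8 : ∑ q : Fin m × Bool → L, wick q *
      ((∑ p, v p ^ 2) ^ m * (∑ p : Fin m × Bool → K, wick p * ∏ j, T (p j) (q j)) -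
        cc K m * ∏ j, w (q j)) =
      (∑ p, v p ^ 2) ^ m * W2 (fun _ : Fin m × Bool => T) -
        cc K m * (cc L m * (∑ q, w q ^ 2) ^ m) := by
    rw [← moment_lin w]
    unfold W2
    rw [Finset.sum_comm]
    simp only [Finset.mul_sum]
    rw [← Finset.sum_sub_distrib]
    refine Finset.sum_congr rfl fun q _ => ?_
    rw [mul_sub, Finset.mul_sum]
    congr 1
    · exact Finset.sum_congr rfl fun p _ => by ring
    · ring
  rw [h8] at h7
  have h9 : cc K m * cc L m * (∑ q, w q ^ 2) ^ m = cc K m * (cc L m * (∑ q, w q ^ 2) ^ m) := by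
    ring
  rw [h9]
  linarith

/-- **Upper bound** for the sum over the diagonal of the pairs -/
theorem W2_upper {I : Type} [Fintype I] [DecidableEq I] (T : I → K → L → ℝ) {η : ℝ}
    (hT : ∀ (x : K → ℝ) (y : L → ℝ), ∑ k, (∑ a, ∑ b, x a * y b * T k a b) ^ 2 ≤
      η * (∑ a, x a ^ 2) * (∑ b, y b ^ 2)) :
    ∑ α : Fin m → I, W2 (fun j : Fin m × Bool => T (α j.1)) ≤ η ^ m * (SP K m * SP L m) := by
  have key := wick_nonneg2 (J := Fin m × Bool) (K := K) (L := L)
    (fun p q => η ^ m * ((∑ α : Fin m → K, if p = (fun x => α x.1) then 1 else 0) *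
      (∑ α : Fin m → L, if q = (fun x => α x.1) then 1 else 0)) -
      ∑ α : Fin m → I, ∏ j, T (α j.1) (p j) (q j)) (by
    intro x y
    have h1 : ∀ (M : Type) [Fintype M] [DecidableEq M] (z : M → ℝ),
        ∑ p : Fin m × Bool → M, (∏ j, z (p j)) *
          (∑ α : Fin m → M, if p = (fun x => α x.1) then (1 : ℝ) else 0) =
          (∑ a, z a ^ 2) ^ m := by
      intro M _ _ z
      simp only [Finset.mul_sum, mul_ite, mul_one, mul_zero]
      rw [Finset.sum_comm]
      simp only [Finset.sum_ite_eq', Finset.mem_univ, if_true, pair_prod]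
      rw [pow_prod, Fintype.prod_sum]
    have h2 : ∑ p : Fin m × Bool → K, ∑ q : Fin m × Bool → L,
        (∏ j, x (p j)) * (∏ j, y (q j)) * ∑ α : Fin m → I, ∏ j, T (α j.1) (p j) (q j) =
        (∑ k, (∑ a, ∑ b, x a * y b * T k a b) ^ 2) ^ m := by
      have h3 : (∑ k, (∑ a, ∑ b, x a * y b * T k a b) ^ 2) ^ m =
          ∑ α : Fin m → I, ∏ j : Fin m × Bool, ∑ a, ∑ b, x a * y b * T (α j.1) a b := by
        rw [pow_prod, Fintype.prod_sum]
        exact Finset.sum_congr rfl fun α _ =>
          (pair_prod (fun k => ∑ a, ∑ b, x a * y b * T k a b) α).symm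
      rw [h3]
      simp only [Finset.mul_sum]
      rw [Finset.sum_congr rfl fun p _ => Finset.sum_comm, Finset.sum_comm]
      refine Finset.sum_congr rfl fun α _ => ?_
      rw [Fintype.prod_sum]
      refine Finset.sum_congr rfl fun p _ => ?_
      rw [Fintype.prod_sum]
      refine Finset.sum_congr rfl fun q _ => ?_
      rw [Finset.prod_mul_distrib, Finset.prod_mul_distrib]
    have h4 : ∑ p : Fin m × Bool → K, ∑ q : Fin m × Bool → L,
        (∏ j, x (p j)) * (∏ j, y (q j)) *
        (η ^ m * ((∑ α : Fin m → K, if p = (fun x => α x.1) then 1 else 0) *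
          (∑ α : Fin m → L, if q = (fun x => α x.1) then 1 else 0))) =
        η ^ m * ((∑ a, x a ^ 2) ^ m * (∑ b, y b ^ 2) ^ m) := by
      rw [← h1 K x, ← h1 L y, Finset.sum_mul_sum, Finset.mul_sum]
      refine Finset.sum_congr rfl fun p _ => ?_
      rw [Finset.mul_sum]
      refine Finset.sum_congr rfl fun q _ => ?_
      ring
    have h5 : ∀ (p : Fin m × Bool → K) (q : Fin m × Bool → L),
        (∏ j, x (p j)) * (∏ j, y (q j)) *
        (η ^ m * ((∑ α : Fin m → K, if p = (fun x => α x.1) then 1 else 0) *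
          (∑ α : Fin m → L, if q = (fun x => α x.1) then 1 else 0)) -
          ∑ α : Fin m → I, ∏ j, T (α j.1) (p j) (q j)) =
        (∏ j, x (p j)) * (∏ j, y (q j)) *
        (η ^ m * ((∑ α : Fin m → K, if p = (fun x => α x.1) then 1 else 0) *
          (∑ α : Fin m → L, if q = (fun x => α x.1) then 1 else 0))) -
        (∏ j, x (p j)) * (∏ j, y (q j)) * ∑ α : Fin m → I, ∏ j, T (α j.1) (p j) (q j) :=
      fun p q => mul_sub _ _ _
    simp only [h5, Finset.sum_sub_distrib]
    rw [h2, h4, sub_nonneg, ← mul_pow, ← mul_pow]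
    refine pow_le_pow_left₀ (Finset.sum_nonneg fun k _ => sq_nonneg _) ?_ m
    rw [← mul_assoc]
    exact hT x y)
  have h6 : ∀ (M : Type) [Fintype M] [DecidableEq M],
      ∑ p : Fin m × Bool → M, wick p *
        (∑ α : Fin m → M, if p = (fun x => α x.1) then (1 : ℝ) else 0) = SP M m := by
    intro M _ _
    simp only [Finset.mul_sum, mul_ite, mul_one, mul_zero]
    rw [Finset.sum_comm]
    simp only [Finset.sum_ite_eq', Finset.mem_univ, if_true]
    rfl
  have h7 : ∀ (p : Fin m × Bool → K) (q : Fin m × Bool → L),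
      wick p * wick q *
      (η ^ m * ((∑ α : Fin m → K, if p = (fun x => α x.1) then 1 else 0) *
        (∑ α : Fin m → L, if q = (fun x => α x.1) then 1 else 0)) -
        ∑ α : Fin m → I, ∏ j, T (α j.1) (p j) (q j)) =
      wick p * wick q *
      (η ^ m * ((∑ α : Fin m → K, if p = (fun x => α x.1) then 1 else 0) *
        (∑ α : Fin m → L, if q = (fun x => α x.1) then 1 else 0))) -
      wick p * wick q * ∑ α : Fin m → I, ∏ j, T (α j.1) (p j) (q j) :=
    fun p q => mul_sub _ _ _
  simp only [h7, Finset.sum_sub_distrib] at key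
  have h8 : ∑ p : Fin m × Bool → K, ∑ q : Fin m × Bool → L, wick p * wick q *
      (η ^ m * ((∑ α : Fin m → K, if p = (fun x => α x.1) then 1 else 0) *
        (∑ α : Fin m → L, if q = (fun x => α x.1) then 1 else 0))) =
      η ^ m * (SP K m * SP L m) := by
    rw [← h6 K, ← h6 L, Finset.sum_mul_sum, Finset.mul_sum]
    refine Finset.sum_congr rfl fun p _ => ?_
    rw [Finset.mul_sum]
    refine Finset.sum_congr rfl fun q _ => ?_
    ring
  have h9 : ∑ p : Fin m × Bool → K, ∑ q : Fin m × Bool → L, wick p * wick q *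
      ∑ α : Fin m → I, ∏ j, T (α j.1) (p j) (q j) =
      ∑ α : Fin m → I, W2 (fun j : Fin m × Bool => T (α j.1)) := by
    unfold W2
    simp only [Finset.mul_sum]
    rw [Finset.sum_congr rfl fun p _ => Finset.sum_comm, Finset.sum_comm]
  rw [h8, h9] at key
  linarith

end bilinear

end Pool.Agent.N509.HN
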